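import Mathlib.Combinatorics.Matroid.Circuit
import Mathlib.Combinatorics.SimpleGraph.Connectivity.Connected

/-!
Matroidal families of graphs: definitions.
-/

namespace Pool.Agent.MP_1a6d08_co

/-- finite simple graphs (on a standard vertex set) -/
abbrev FinGraph : Type := Σ n : ℕ, SimpleGraph (Fin n)

/-- `N` is the matroid `P(Γ)`: its ground set is the edge set of `Γ` and its circuits are exactly
the edge sets of the subgraphs of `Γ` that are isomorphic to members of `P`. -/
def Induces (P : Set FinGraph) {V : Type} (Γ : SimpleGraph V) (N : Matroid (Sym2 V)) : Prop :=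
  N.E = Γ.edgeSet ∧ ∀ C : Set (Sym2 V), N.IsCircuit C ↔
    ∃ H : Γ.Subgraph, ∃ p ∈ P, Nonempty (H.coe ≃g p.2) ∧ C = H.edgeSet

/-- a matroidal family of graphs -/
def Matroidal (P : Set FinGraph) : Prop :=
  P.Nonempty ∧ (∀ p ∈ P, p.2.Connected) ∧
    ∀ (V : Type) [Finite V] (Γ : SimpleGraph V), ∃ N : Matroid (Sym2 V), Induces P Γ N

/-- `M` is isomorphic to `P(Γ)` for some matroidal family `P` and some finite graph `Γ` -/
def InClass {α : Type} (M : Matroid α) : Prop :=
  ∃ (P : Set FinGraph) (V : Type) (_ : Finite V) (Γ : SimpleGraph V) (f : α → Sym2 V)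
    (hf : Set.InjOn f M.E), Matroidal P ∧ Induces P Γ (M.map f hf)

end Pool.Agent.MP_1a6d08_co
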