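import Mathlib.Tactic.Linarith.Frontend
import Mathlib.Tactic.NormNum.Ineq
import Mathlib.Data.Finite.Sum
import Mathlib.Topology.Sheaves.Presheaf
import Mathlib.Tactic.Monotonicity.Lemmas
import Mathlib.Data.Int.ConditionallyCompleteOrder
import Mathlib.Data.Int.Star
import Mathlib.Algebra.Order.Ring.Star
import Mathlib.Combinatorics.Matroid.Rank.ENat
import Mathlib.Combinatorics.SimpleGraph.DegreeSum
import Mathlib.Combinatorics.SimpleGraph.Connectivity.Finite
import Mathlib.RingTheory.PiTensorProduct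
import Mathlib.Order.CompletePartialOrder
import Mathlib.Tactic.Algebra.Basic
import Pool.Agent.MP_1a6d08_co.Defs

-- ======== part 0: formerly Pool.Agent.MP_1a6d08_co.Basic
section MrgPart0

/-!
Matroidal families of graphs: families given by an invariant notion of dependence.
-/

open Set

namespace Pool.Agent.MP_1a6d08_co

/-- copies of members of `P` -/
def Cp (P : Set FinGraph) {V : Type} (C : Set (Sym2 V)) : Prop :=
  ∃ p ∈ P, ∃ φ : Fin p.1 ↪ V, C = Sym2.map φ '' p.2.edgeSet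

theorem mem_map_image {V W : Type} (φ : V ↪ W) (F : Set (Sym2 V)) (a b : V) :
    s(φ a, φ b) ∈ Sym2.map φ '' F ↔ s(a, b) ∈ F :=
  (Sym2.map.injective φ.injective).mem_set_image (a := s(a, b))

theorem sub_iff (P : Set FinGraph) {V : Type} (Γ : SimpleGraph V) (C : Set (Sym2 V)) :
    (∃ H : Γ.Subgraph, ∃ p ∈ P, Nonempty (H.coe ≃g p.2) ∧ C = H.edgeSet) ↔
      Cp P C ∧ C ⊆ Γ.edgeSet := by
  constructor
  · rintro ⟨H, p, hp, ⟨e⟩, rfl⟩
    refine ⟨⟨p, hp, e.symm.toEquiv.toEmbedding.trans (Function.Embedding.subtype _), ?_⟩,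
      H.edgeSet_subset⟩
    ext x
    induction x using Sym2.ind with
    | _ a b =>
      constructor
      · intro h
        have h' : H.Adj a b := h
        refine ⟨s(e ⟨a, H.edge_vert h'⟩, e ⟨b, H.edge_vert h'.symm⟩), ?_, by simp⟩
        exact e.map_adj_iff.2 h'
      · rintro ⟨y, hy, h⟩
        induction y using Sym2.ind with
        | _ u w =>
          rw [← h]
          exact e.symm.map_adj_iff.2 hy
  · rintro ⟨⟨p, hp, φ, rfl⟩, hC⟩
    let H : Γ.Subgraph :=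
      { verts := range φ
        Adj := fun a b => s(a, b) ∈ Sym2.map φ '' p.2.edgeSet
        adj_sub := fun h => hC h
        edge_vert := by
          rintro a b ⟨y, -, h⟩
          have : a ∈ Sym2.map φ y := by rw [h]; simp
          obtain ⟨u, -, hu⟩ := Sym2.mem_map.1 this
          exact ⟨u, hu⟩
        symm := ⟨fun a b h => by rwa [Sym2.eq_swap]⟩ }
    refine ⟨H, p, hp, ⟨SimpleGraph.Iso.symm ⟨Equiv.ofInjective φ φ.injective, ?_⟩⟩, ?_⟩
    · intro u w
      exact mem_map_image φ _ u w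
    · ext x
      induction x using Sym2.ind with
      | _ a b => rfl

theorem Induces.circ {P : Set FinGraph} {V : Type} {Γ : SimpleGraph V} {N : Matroid (Sym2 V)}
    (h : Induces P Γ N) (C : Set (Sym2 V)) : N.IsCircuit C ↔ Cp P C ∧ C ⊆ Γ.edgeSet :=
  (h.2 C).trans (sub_iff P Γ C)

theorem exists_min {α : Type} {D : Set α → Prop} {F : Set α} (hF : F.Finite) (h : D F) :
    ∃ C ⊆ F, Minimal D C := by
  have h1 : {C | C ⊆ F ∧ D C}.Finite := hF.finite_subsets.subset fun _ h => h.1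
  obtain ⟨C, hC⟩ := h1.exists_minimal ⟨F, subset_rfl, h⟩
  exact ⟨C, hC.1.1, hC.1.2, fun G hG hGC => hC.2 ⟨hGC.trans hC.1.1, hG⟩ hGC⟩

/-- a matroid from weak circuit elimination -/
theorem exists_matroid {α : Type} [Finite α] (E : Set α) (D : Set α → Prop)
    (mono : ∀ F F', F ⊆ F' → D F → D F') (empty : ¬D ∅)
    (elim : ∀ F1 F2 e, Minimal D F1 → Minimal D F2 → F1 ≠ F2 → e ∈ F1 → e ∈ F2 →
      D ((F1 ∪ F2) \ {e})) :
    ∃ N : Matroid α, N.E = E ∧ ∀ I, N.Indep I ↔ I ⊆ E ∧ ¬D I := by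
  refine ⟨(IndepMatroid.ofFinite (toFinite E) (fun I => I ⊆ E ∧ ¬D I) ⟨empty_subset _, empty⟩
    (fun I J hJ h => ⟨h.trans hJ.1, fun h' => hJ.2 (mono _ _ h h')⟩) ?_
    fun I hI => hI.1).matroid, rfl, fun I => Iff.rfl⟩
  intro I J hI hJ hlt
  by_contra hn
  push Not at hn
  obtain ⟨K, ⟨k1, k2, k3⟩, hK⟩ := exists_min_image
    {K : Set α | K ⊆ I ∪ J ∧ ¬D K ∧ I.ncard < K.ncard} (fun K => (I \ K).ncard) (toFinite _)
    ⟨J, subset_union_right, hJ.2, hlt⟩
  obtain ⟨f0, f1, f2⟩ := exists_mem_notMem_of_ncard_lt_ncard k3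
  by_cases hIK : I ⊆ K
  · have hf : f0 ∈ J := (k1 f1).resolve_left f2
    exact k2 (mono _ _ (insert_subset f1 hIK)
      (hn f0 hf f2 (insert_subset (hJ.1 hf) hI.1)))
  obtain ⟨x, x1, x2⟩ := not_subset.1 hIK
  have key : ∀ f ∈ K, f ∉ I → ∃ C, Minimal D C ∧ C ⊆ insert x K ∧ f ∉ C ∧ x ∈ C := by
    intro f a1 a2
    have hD : D (insert x (K \ {f})) := by
      by_contra hD
      have b1 := hK (insert x (K \ {f})) ⟨insert_subset (Or.inl x1) (sdiff_subset.trans k1), hD,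
        by rwa [ncard_exchange x2 a1]⟩
      refine absurd b1 (not_le.2 (ncard_lt_ncard ⟨fun y hy => ⟨hy.1, fun h => hy.2 ?_⟩, ?_⟩))
      · exact Or.inr ⟨h, fun e => a2 (e ▸ hy.1)⟩
      · exact fun h => (h ⟨x1, x2⟩).2 (Or.inl rfl)
    obtain ⟨C, c1, c2⟩ := exists_min (toFinite _) hD
    refine ⟨C, c2, c1.trans (insert_subset_insert sdiff_subset), fun h => ?_, ?_⟩
    · rcases c1 h with e | e
      · exact a2 (e ▸ x1)
      · exact e.2 rfl
    · by_contra h
      exact k2 (mono _ _ (fun y hy => ((c1 hy).resolve_left fun e => h (e ▸ hy)).1) c2.1)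
  obtain ⟨C, c1, c2, -, c4⟩ := key f0 f1 f2
  obtain ⟨g, g1, g2⟩ := not_subset.1 fun h : C ⊆ I => hI.2 (mono _ _ h c1.1)
  have g3 : g ∈ K := (c2 g1).resolve_left fun e => g2 (e ▸ x1)
  obtain ⟨C', d1, d2, d3, d4⟩ := key g g3 g2
  refine k2 (mono _ _ (fun y hy => ?_) (elim C C' x c1 d1 (fun e => d3 (e ▸ g1)) c4 d4))
  exact (hy.1.elim (fun h => c2 h) fun h => d2 h).resolve_left hy.2

/-- the vertices met by a set of edges -/
def supp {V : Type} (F : Set (Sym2 V)) : Set V := {x | ∃ e ∈ F, x ∈ e}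

/-- an invariant notion of dependence -/
structure DepSys where
  D : ∀ {V : Type}, Set (Sym2 V) → Prop
  mono : ∀ {V : Type} (F F' : Set (Sym2 V)), F ⊆ F' → D F → D F'
  empty : ∀ V : Type, ¬D (∅ : Set (Sym2 V))
  map : ∀ {V W : Type} [Finite V] [Finite W] (φ : V ↪ W) (F : Set (Sym2 V)),
    D (Sym2.map φ '' F) ↔ D F
  elim : ∀ {V : Type} [Finite V] (F1 F2 : Set (Sym2 V)) (e : Sym2 V), Minimal D F1 →
    Minimal D F2 → F1 ≠ F2 → e ∈ F1 → e ∈ F2 → D ((F1 ∪ F2) \ {e})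
  split : ∀ {V : Type} [Finite V] (F1 F2 : Set (Sym2 V)), Disjoint (supp F1) (supp F2) →
    D (F1 ∪ F2) → D F1 ∨ D F2
  ex : ∃ (V : Type) (_ : Finite V) (Γ : SimpleGraph V), D Γ.edgeSet

namespace DepSys

variable (S : DepSys)

/-- the family of the minimal dependent graphs -/
def fam : Set FinGraph := {p | p.2.Connected ∧ Minimal S.D p.2.edgeSet}

theorem min_map {V W : Type} [Finite V] [Finite W] (φ : V ↪ W) (F : Set (Sym2 V)) :
    Minimal S.D (Sym2.map φ '' F) ↔ Minimal S.D F := by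
  have hi := Sym2.map.injective φ.injective
  constructor
  · exact fun h => ⟨(S.map φ F).1 h.1, fun G hG hGF =>
      (image_subset_image_iff hi).1 (h.2 ((S.map φ G).2 hG) (image_mono hGF))⟩
  · refine fun h => ⟨(S.map φ F).2 h.1, fun G hG hGF => ?_⟩
    obtain ⟨G', h1, rfl⟩ := subset_image_iff.1 hGF
    exact image_mono (h.2 ((S.map φ G').1 hG) h1)

theorem cp_iff {V : Type} [Finite V] (Γ : SimpleGraph V) {C : Set (Sym2 V)}
    (hC : C ⊆ Γ.edgeSet) : Cp S.fam C ↔ Minimal S.D C := by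
  constructor
  · rintro ⟨p, hp, φ, rfl⟩
    exact (S.min_map φ _).2 hp.2
  intro h
  let η := (Finite.equivFin (supp C)).symm
  let φ : Fin (Nat.card (supp C)) ↪ V := η.toEmbedding.trans (Function.Embedding.subtype _)
  let p : SimpleGraph (Fin (Nat.card (supp C))) :=
    { Adj := fun u w => s(φ u, φ w) ∈ C
      symm := ⟨fun a b h => by rwa [Sym2.eq_swap]⟩
      loopless := ⟨fun a h => Γ.irrefl (hC h)⟩ }
  have sur : ∀ x ∈ supp C, ∃ u, φ u = x := fun x hx => ⟨η.symm ⟨x, hx⟩,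
    congrArg Subtype.val (η.apply_symm_apply ⟨x, hx⟩)⟩
  have e : C = Sym2.map φ '' p.edgeSet := by
    ext x
    induction x using Sym2.ind with
    | _ a b =>
      constructor
      · intro hx
        obtain ⟨u, rfl⟩ := sur a ⟨_, hx, by simp⟩
        obtain ⟨w, rfl⟩ := sur b ⟨_, hx, by simp⟩
        exact ⟨s(u, w), hx, rfl⟩
      · rintro ⟨y, hy, h⟩
        induction y using Sym2.ind with
        | _ u w =>
          rw [← h]
          exact hy
  have hm : Minimal S.D p.edgeSet := (S.min_map φ _).1 (e ▸ h)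
  have inc : ∀ u, ∃ y ∈ p.edgeSet, u ∈ y := fun u => by
    obtain ⟨x, hx, hu⟩ : φ u ∈ supp C := (η u).2
    rw [e] at hx
    obtain ⟨y, hy, rfl⟩ := hx
    obtain ⟨w, h1, h2⟩ := Sym2.mem_map.1 hu
    exact ⟨y, hy, φ.injective h2 ▸ h1⟩
  refine ⟨⟨_, p⟩, ⟨?_, hm⟩, φ, e⟩
  obtain ⟨x, hx⟩ : C.Nonempty := nonempty_iff_ne_empty.2 fun h0 => S.empty V (h0 ▸ h.1)
  obtain ⟨u0, -⟩ := sur x.out.1 ⟨x, hx, Sym2.out_fst_mem x⟩
  have : Nonempty (Fin (Nat.card (supp C))) := ⟨u0⟩
  refine ⟨fun u w => ?_⟩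
  have hs := S.split {y ∈ p.edgeSet | ∀ z ∈ y, p.Reachable u z}
    {y ∈ p.edgeSet | ∀ z ∈ y, ¬p.Reachable u z}
    (disjoint_left.2 fun z ⟨y, hy, h1⟩ ⟨y', hy', h2⟩ => hy'.2 z h2 (hy.2 z h1))
    (S.mono _ _ (fun y hy => by
      induction y using Sym2.ind with
      | _ a b =>
        have hab : p.Adj a b := hy
        by_cases ha : p.Reachable u a
        · exact Or.inl ⟨hy, Sym2.ball.2 ⟨ha, ha.trans hab.reachable⟩⟩
        · exact Or.inr ⟨hy, Sym2.ball.2 ⟨ha, fun hb => ha (hb.trans hab.symm.reachable)⟩⟩) hm.1)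
  rcases hs with hs | hs
  · obtain ⟨y, hy, hw⟩ := inc w
    exact (hm.2 hs (sep_subset _ _) hy).2 w hw
  · obtain ⟨y, hy, hw⟩ := inc u
    exact absurd (SimpleGraph.Reachable.refl u) ((hm.2 hs (sep_subset _ _) hy).2 u hw)

theorem induces {V : Type} [Finite V] (Γ : SimpleGraph V) (N : Matroid (Sym2 V))
    (hE : N.E = Γ.edgeSet) (h : ∀ I ⊆ Γ.edgeSet, N.Indep I ↔ ¬S.D I) : Induces S.fam Γ N := by
  refine ⟨hE, fun C => ?_⟩
  rw [sub_iff]
  constructor
  · intro hC
    have h1 : C ⊆ Γ.edgeSet := hE ▸ hC.subset_ground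
    refine ⟨(S.cp_iff Γ h1).2 ⟨not_not.1 fun h2 => hC.not_indep ((h C h1).2 h2), fun G hG hGC => ?_⟩,
      h1⟩
    exact (hC.eq_of_not_indep_subset (fun h2 => (h G (hGC.trans h1)).1 h2 hG) hGC).ge
  · rintro ⟨h1, h2⟩
    rw [S.cp_iff Γ h2] at h1
    rw [Matroid.isCircuit_iff_minimal_not_indep (hE ▸ h2)]
    exact ⟨fun h3 => (h C h2).1 h3 h1.1, fun G hG hGC =>
      h1.2 (not_not.1 fun h3 => hG ((h G (hGC.trans h2)).2 h3)) hGC⟩

theorem matroidal : Matroidal S.fam := by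
  refine ⟨?_, fun p hp => hp.1, fun V _ Γ => ?_⟩
  · obtain ⟨V, _, Γ, h⟩ := S.ex
    obtain ⟨C, h1, h2⟩ := exists_min (toFinite _) h
    obtain ⟨p, hp, -⟩ := (S.cp_iff Γ h1).2 h2
    exact ⟨p, hp⟩
  · obtain ⟨N, h1, h2⟩ := exists_matroid Γ.edgeSet S.D S.mono (S.empty V) S.elim
    exact ⟨N, S.induces Γ N h1 fun I hI => by rw [h2, and_iff_right hI]⟩

end DepSys

end Pool.Agent.MP_1a6d08_co

end MrgPart0

-- ======== part 1: formerly Pool.Agent.MP_1a6d08_co.Real
section MrgPart1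

/-!
Matroidal families of graphs: count families with finitely many extra circuits.
-/

open Set

namespace Pool.Agent.MP_1a6d08_co

theorem supp_mono {V : Type} {F G : Set (Sym2 V)} (h : F ⊆ G) : supp F ⊆ supp G :=
  fun _ ⟨e, he, hx⟩ => ⟨e, h he, hx⟩

theorem supp_map {V W : Type} (φ : V → W) (F : Set (Sym2 V)) :
    supp (Sym2.map φ '' F) = φ '' supp F := by
  ext x
  constructor
  · rintro ⟨_, ⟨e, he, rfl⟩, hx⟩
    obtain ⟨a, ha, rfl⟩ := Sym2.mem_map.1 hx
    exact ⟨a, ⟨e, he, ha⟩, rfl⟩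
  · rintro ⟨a, ⟨e, he, ha⟩, rfl⟩
    exact ⟨_, ⟨e, he, rfl⟩, Sym2.mem_map.2 ⟨a, ha, rfl⟩⟩

theorem sr' {V W : Type} (φ : V → W) (F : Set (Sym2 V)) : supp (Sym2.map φ '' F) ⊆ range φ := by
  rw [supp_map]; exact image_subset_range _ _

theorem supp_nonempty {V : Type} {F : Set (Sym2 V)} (h : F.Nonempty) : (supp F).Nonempty :=
  ⟨h.some.out.1, _, h.some_mem, Sym2.out_fst_mem _⟩

theorem ncard_map {V W : Type} (φ : V ↪ W) (F : Set (Sym2 V)) :
    (Sym2.map φ '' F).ncard = F.ncard :=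
  ncard_image_of_injective _ (Sym2.map.injective φ.injective)

/-- more than `k v - l` edges on `v` vertices -/
def Over (k l : ℕ) {V : Type} (F : Set (Sym2 V)) : Prop :=
  F.Nonempty ∧ k * (supp F).ncard < F.ncard + l

theorem over_map {k l : ℕ} {V W : Type} (φ : V ↪ W) (F : Set (Sym2 V)) :
    Over k l (Sym2.map φ '' F) ↔ Over k l F := by
  rw [Over, Over, supp_map, ncard_map, ncard_image_of_injective _ φ.injective, image_nonempty]

theorem over_of {k l : ℕ} {V : Type} [Finite V] {F1 F2 : Set (Sym2 V)} {e : Sym2 V} {W : Set V}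
    (hne : F1 ≠ F2) (e1 : e ∈ F1) (e2 : e ∈ F2) (s1 : supp F1 ⊆ W) (s2 : supp F2 ⊆ W)
    (h : k * W.ncard + 2 ≤ (F1 ∪ F2).ncard + l) : Over k l ((F1 ∪ F2) \ {e}) := by
  refine ⟨nonempty_iff_ne_empty.2 fun h0 => hne ?_, ?_⟩
  · rw [sdiff_eq_empty, union_subset_iff] at h0
    exact ((h0.1.antisymm (singleton_subset_iff.2 e1)).trans
      (h0.2.antisymm (singleton_subset_iff.2 e2)).symm)
  · have h1 : (supp ((F1 ∪ F2) \ {e})).ncard ≤ W.ncard := ncard_le_ncard
      fun x ⟨y, hy, hx⟩ => hy.1.elim (fun h => s1 ⟨y, h, hx⟩) fun h => s2 ⟨y, h, hx⟩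
    have h2 := ncard_sdiff_singleton_add_one (s := F1 ∪ F2) (Or.inl e1)
    have h3 := Nat.mul_le_mul_left k h1
    omega

theorem over_two {k l : ℕ} {V : Type} [Finite V] {F1 F2 : Set (Sym2 V)} {e : Sym2 V}
    {V1 V2 : Set V} (d1 d2 : ℕ) (hne : F1 ≠ F2) (e1 : e ∈ F1) (e2 : e ∈ F2) (s1 : supp F1 ⊆ V1)
    (s2 : supp F2 ⊆ V2) (h1 : k * V1.ncard + 1 ≤ F1.ncard + l + d1)
    (h2 : k * V2.ncard + 1 ≤ F2.ncard + l + d2)
    (h : (F1 ∩ F2).ncard + l + d1 + d2 ≤ k * (V1 ∩ V2).ncard) : Over k l ((F1 ∪ F2) \ {e}) := by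
  refine over_of hne e1 e2 (s1.trans subset_union_left) (s2.trans subset_union_right) ?_
  have h3 := ncard_union_add_ncard_inter F1 F2
  have h4 := congrArg (k * ·) (ncard_union_add_ncard_inter V1 V2)
  simp only [mul_add] at h4
  omega

theorem exists_perm {V W : Type} [Finite V] (φ ψ : V ↪ W) (h : range φ ⊆ range ψ) :
    ∃ σ : Equiv.Perm V, ∀ x, ψ (σ x) = φ x := by
  choose σ hσ using fun x => h (mem_range_self x)
  exact ⟨Equiv.ofBijective σ (Finite.injective_iff_bijective.1 fun x y e =>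
    φ.injective (by rw [← hσ, ← hσ, e])), hσ⟩

theorem realize {V0 : Type} [Finite V0] (Γ : SimpleGraph V0) (N : Matroid (Sym2 V0))
    (hE : N.E = Γ.edgeSet) (k l a : ℕ) (h1 : ∀ I, N.Indep I → ¬Over k l I)
    (h2 : ∀ C, N.IsCircuit C → ¬Over k l C → k * Nat.card V0 + 1 ≤ C.ncard + l + a ∧
      (∀ F ⊆ C, F.Nonempty → ∀ S : Set V0, supp F ⊆ S → S ≠ univ →
        F.ncard + l + 2 * a ≤ k * S.ncard) ∧
      ∀ σ : Equiv.Perm V0, σ ≠ 1 →
        (Γ.edgeSet ∩ Sym2.map σ '' Γ.edgeSet).ncard + l + 2 * a ≤ k * Nat.card V0) :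
    ∃ P, Matroidal P ∧ Induces P Γ N := by
  let D : ∀ {V : Type}, Set (Sym2 V) → Prop := fun {V} F => (∃ G ⊆ F, Over k l G) ∨
    ∃ C, (N.IsCircuit C ∧ ¬Over k l C) ∧ ∃ φ : V0 ↪ V, Sym2.map φ '' C ⊆ F
  have le : ∀ S : Set V0, k * S.ncard ≤ k * Nat.card V0 := fun S =>
    Nat.mul_le_mul_left k (ncard_univ V0 ▸ ncard_le_ncard (subset_univ S))
  have full : ∀ C, N.IsCircuit C → ¬Over k l C → supp C = univ := fun C c1 c2 => by
    by_contra hn
    have a1 := (h2 C c1 c2).1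
    have a2 := (h2 C c1 c2).2.1 C subset_rfl c1.nonempty _ subset_rfl hn
    have a3 := le (supp C)
    omega
  have mono : ∀ {V : Type} (F F' : Set (Sym2 V)), F ⊆ F' → D F → D F' := fun F F' h hF =>
    hF.imp (fun ⟨G, g1, g2⟩ => ⟨G, g1.trans h, g2⟩) fun ⟨C, c1, φ, c2⟩ => ⟨C, c1, φ, c2.trans h⟩
  have circ : ∀ {V : Type} (φ : V0 ↪ V) C, N.IsCircuit C → D (Sym2.map φ '' C) := fun φ C hC => by
    by_cases h : Over k l C
    · exact Or.inl ⟨_, subset_rfl, (over_map φ C).2 h⟩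
    · exact Or.inr ⟨C, ⟨hC, h⟩, φ, subset_rfl⟩
  have cs : ∀ {V : Type} (F : Set (Sym2 V)), Minimal D F → Over k l F ∨
      ∃ C, (N.IsCircuit C ∧ ¬Over k l C) ∧ ∃ φ : V0 ↪ V, F = Sym2.map φ '' C := fun F hF => by
    rcases hF.1 with ⟨G, g1, g2⟩ | ⟨C, c1, φ, c2⟩
    · exact Or.inl (g1.antisymm (hF.2 (Or.inl ⟨G, subset_rfl, g2⟩) g1) ▸ g2)
    · exact Or.inr ⟨C, c1, φ, (hF.2 (circ φ C c1.1) c2).antisymm c2⟩
  have rg : ∀ {V : Type} (φ : V0 ↪ V), (range φ).ncard = Nat.card V0 := fun φ => by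
    rw [← image_univ, ncard_image_of_injective _ φ.injective, ncard_univ]
  have sr : ∀ {V : Type} (φ : V0 ↪ V) (C : Set (Sym2 V0)), supp (Sym2.map φ '' C) ⊆ range φ :=
    fun φ C => by rw [supp_map]; exact image_subset_range _ _
  have cut : ∀ {V : Type} (φ : V0 ↪ V) C, N.IsCircuit C → ¬Over k l C →
      ∀ (F2 : Set (Sym2 V)) (V2 : Set V), supp F2 ⊆ V2 → ¬range φ ⊆ V2 →
      (Sym2.map φ '' C ∩ F2).Nonempty →
      (Sym2.map φ '' C ∩ F2).ncard + l + 2 * a ≤ k * (range φ ∩ V2).ncard := by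
    intro V φ C c1 c2 F2 V2 s2 hn ne
    rw [← image_inter_preimage] at ne ⊢
    rw [ncard_map, ← image_preimage_eq_range_inter, ncard_image_of_injective _ φ.injective]
    refine (h2 C c1 c2).2.1 _ inter_subset_left (image_nonempty.1 ne) _ ?_ fun h => hn ?_
    · rintro x ⟨y, hy, hx⟩
      exact s2 ⟨_, hy.2, Sym2.mem_map.2 ⟨x, hx, rfl⟩⟩
    · rintro _ ⟨x, rfl⟩
      exact (h.ge (mem_univ x) :)
  have so : ∀ {V : Type} [Finite V] (F1 F2 : Set (Sym2 V)) (e : Sym2 V), Minimal D F1 →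
      Minimal D F2 → F1 ≠ F2 → e ∈ F1 → e ∈ F2 → Over k l F2 →
      ∀ C, N.IsCircuit C → ¬Over k l C → ∀ φ : V0 ↪ V, F1 = Sym2.map φ '' C →
      Over k l ((F1 ∪ F2) \ {e}) := by
    intro V _ F1 F2 e m1 m2 hne e1 e2 o2 C c1 c2 φ hF
    by_cases hr : range φ ⊆ supp F2
    · refine over_of hne e1 e2 ((hF ▸ sr φ C).trans hr) subset_rfl ?_
      have b1 : F2.ncard < (F1 ∪ F2).ncard := ncard_lt_ncard ⟨subset_union_right, fun h =>
        hne ((subset_union_left.trans h).antisymm (m2.2 m1.1 (subset_union_left.trans h)))⟩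
      have b2 := o2.2
      omega
    · have b1 := cut φ C c1 c2 F2 _ subset_rfl hr ⟨e, hF ▸ e1, e2⟩
      have b2 := (h2 C c1 c2).1
      have b3 := o2.2
      rw [← hF] at b1
      refine over_two a 0 hne e1 e2 (hF ▸ sr φ C) subset_rfl ?_ (by omega) (by omega)
      rwa [rg, hF, ncard_map]
  let S : DepSys :=
    { D := D
      mono := mono
      empty := by
        rintro V (⟨G, g1, g2⟩ | ⟨C, c1, φ, c2⟩)
        · exact g2.1.ne_empty (subset_empty_iff.1 g1)
        · exact (c1.1.nonempty.image _).ne_empty (subset_empty_iff.1 c2)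
      map := by
        intro V W _ _ φ F
        constructor
        · rintro (⟨G, g1, g2⟩ | ⟨C, c1, ψ, c2⟩)
          · obtain ⟨G', g3, rfl⟩ := subset_image_iff.1 g1
            exact Or.inl ⟨G', g3, (over_map φ G').1 g2⟩
          · have b1 : ∀ x, ∃ y, φ y = ψ x := fun x => sr' φ F (supp_mono c2 (by
              rw [supp_map, full C c1.1 c1.2]; exact mem_image_of_mem _ (mem_univ x)))
            choose χ hχ using b1
            refine Or.inr ⟨C, c1, ⟨χ, fun x y e => ψ.injective (by rw [← hχ, ← hχ, e])⟩, ?_⟩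
            rintro _ ⟨c, hc, rfl⟩
            refine (Sym2.map.injective φ.injective).mem_set_image.1 (c2 ⟨c, hc, ?_⟩)
            rw [Sym2.map_map]
            congr 1
            exact funext fun x => (hχ x).symm
        · rintro (⟨G, g1, g2⟩ | ⟨C, c1, ψ, c2⟩)
          · exact Or.inl ⟨_, image_mono g1, (over_map φ G).2 g2⟩
          · refine Or.inr ⟨C, c1, ψ.trans φ, ?_⟩
            rintro _ ⟨c, hc, rfl⟩
            exact ⟨_, c2 ⟨c, hc, rfl⟩, Sym2.map_map c⟩
      elim := by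
        intro V _ F1 F2 e m1 m2 hne e1 e2
        rcases cs F1 m1 with o1 | ⟨C1, c1, φ1, hF1⟩ <;> rcases cs F2 m2 with o2 | ⟨C2, c2, φ2, hF2⟩
        · refine Or.inl ⟨_, subset_rfl, over_two 0 0 hne e1 e2 subset_rfl subset_rfl o1.2 o2.2 ?_⟩
          have b1 : ¬Over k l (F1 ∩ F2) := fun h => by
            have b2 := (m1.2 (Or.inl ⟨_, subset_rfl, h⟩) inter_subset_left).trans inter_subset_right
            exact hne (b2.antisymm (m2.2 m1.1 b2))
          refine (not_lt.1 fun h => b1 ⟨⟨e, e1, e2⟩, h⟩).trans (Nat.mul_le_mul_left k ?_)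
          exact ncard_le_ncard (subset_inter (supp_mono inter_subset_left)
            (supp_mono inter_subset_right))
        · rw [union_comm]
          exact Or.inl ⟨_, subset_rfl, so F2 F1 e m2 m1 hne.symm e2 e1 o1 C2 c2.1 c2.2 φ2 hF2⟩
        · exact Or.inl ⟨_, subset_rfl, so F1 F2 e m1 m2 hne e1 e2 o2 C1 c1.1 c1.2 φ1 hF1⟩
        have b1 : k * Nat.card V0 + 1 ≤ F1.ncard + l + a := by
          rw [hF1, ncard_map]; exact (h2 C1 c1.1 c1.2).1
        have b2 : k * Nat.card V0 + 1 ≤ F2.ncard + l + a := by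
          rw [hF2, ncard_map]; exact (h2 C2 c2.1 c2.2).1
        by_cases hr : range φ1 ⊆ range φ2
        · obtain ⟨σ, hσ⟩ := exists_perm φ1 φ2 hr
          by_cases h : σ = 1
          · obtain rfl : φ2 = φ1 := Function.Embedding.ext fun x => by rw [← hσ, h]; rfl
            subst hF1 hF2
            obtain ⟨c, -, rfl⟩ := e1
            obtain ⟨C3, d1, d2⟩ := c1.1.elimination c2.1 (fun h => hne (by rw [h])) c
            refine mono _ _ ?_ (circ φ2 C3 d2)
            rw [← image_union, ← image_singleton, ← image_sdiff (Sym2.map.injective φ2.injective)]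
            exact image_mono d1
          · refine Or.inl ⟨_, subset_rfl, over_two a a hne e1 e2 ((hF1 ▸ sr φ1 C1).trans hr)
              (hF2 ▸ sr φ2 C2) (by rwa [rg]) (by rwa [rg]) ?_⟩
            have b3 := (h2 C1 c1.1 c1.2).2.2 σ h
            have b4 : (F1 ∩ F2).ncard ≤ (Γ.edgeSet ∩ Sym2.map σ '' Γ.edgeSet).ncard := by
              rw [← ncard_map φ2]
              refine ncard_le_ncard ?_
              rw [hF1, hF2]
              rintro _ ⟨⟨x, hx, e3⟩, y, hy, rfl⟩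
              refine ⟨y, ⟨hE ▸ c2.1.subset_ground hy, x, hE ▸ c1.1.subset_ground hx,
                Sym2.map.injective φ2.injective ?_⟩, rfl⟩
              rw [← e3, Sym2.map_map]
              congr 1
              exact funext hσ
            rw [inter_self, rg]
            omega
        · have b3 := cut φ1 C1 c1.1 c1.2 F2 _ (hF2 ▸ sr φ2 C2) hr ⟨e, hF1 ▸ e1, e2⟩
          rw [← hF1] at b3
          exact Or.inl ⟨_, subset_rfl, over_two a a hne e1 e2 (hF1 ▸ sr φ1 C1) (hF2 ▸ sr φ2 C2)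
            (by rwa [rg]) (by rwa [rg]) (by omega)⟩
      split := by
        intro V _ F1 F2 hd hD
        have two : ∀ {W : Type} [Finite W] (G : Set (Sym2 W)) (A B : Set (Sym2 W)), G ⊆ A ∪ B →
            Disjoint (supp A) (supp B) → G.ncard ≤ (G ∩ A).ncard + (G ∩ B).ncard ∧
            k * (supp (G ∩ A)).ncard + k * (supp (G ∩ B)).ncard ≤ k * (supp G).ncard := by
          intro W _ G A B h hd
          constructor
          · refine le_trans (ncard_le_ncard fun x hx => ?_) (ncard_union_le _ _)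
            exact (h hx).imp (fun h => ⟨hx, h⟩) fun h => ⟨hx, h⟩
          · rw [← mul_add, ← ncard_union_eq (hd.mono (supp_mono inter_subset_right)
              (supp_mono inter_subset_right))]
            exact Nat.mul_le_mul_left k (ncard_le_ncard (union_subset (supp_mono inter_subset_left)
              (supp_mono inter_subset_left)))
        have one : ∀ {W : Type} (G A B : Set W), G ⊆ A ∪ B → ¬G ⊆ B → (G ∩ A).Nonempty :=
          fun G A B h hn => (not_subset.1 hn).imp fun x hx => ⟨hx.1, (h hx.1).resolve_right hx.2⟩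
        by_contra hn
        rw [not_or] at hn
        rcases hD with ⟨G, g1, g2⟩ | ⟨C, c1, φ, c2⟩
        · have b1 := two G F1 F2 g1 hd
          have b2 := not_lt.1 fun h => hn.1 (Or.inl ⟨G ∩ F1, inter_subset_right,
            one G F1 F2 g1 fun h => hn.2 (Or.inl ⟨G, h, g2⟩), h⟩)
          have b3 := not_lt.1 fun h => hn.2 (Or.inl ⟨G ∩ F2, inter_subset_right,
            one G F2 F1 (union_comm F1 F2 ▸ g1) fun h => hn.1 (Or.inl ⟨G, h, g2⟩), h⟩)
          have b4 := g2.2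
          omega
        · have g1 : C ⊆ Sym2.map φ ⁻¹' F1 ∪ Sym2.map φ ⁻¹' F2 := fun x hx => c2 ⟨x, hx, rfl⟩
          have hd' : Disjoint (supp (Sym2.map φ ⁻¹' F1)) (supp (Sym2.map φ ⁻¹' F2)) :=
            disjoint_left.2 fun x ⟨y, hy, hx⟩ ⟨y', hy', hx'⟩ => disjoint_left.1 hd
              ⟨_, hy, Sym2.mem_map.2 ⟨x, hx, rfl⟩⟩ ⟨_, hy', Sym2.mem_map.2 ⟨x, hx', rfl⟩⟩
          have n1 := one C _ _ g1 fun h => hn.2 (Or.inr ⟨C, c1, φ, image_subset_iff.2 h⟩)
          have n2 := one C _ _ (union_comm _ _ ▸ g1) fun h =>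
            hn.1 (Or.inr ⟨C, c1, φ, image_subset_iff.2 h⟩)
          have b1 := two C _ _ g1 hd'
          have b2 := (h2 C c1.1 c1.2).2.1 _ inter_subset_left n1 _ subset_rfl fun h => by
            obtain ⟨x, hx⟩ := supp_nonempty n2
            exact disjoint_left.1 hd' (supp_mono inter_subset_right (h.ge (mem_univ x)))
              (supp_mono inter_subset_right hx)
          have b3 := (h2 C c1.1 c1.2).2.1 _ inter_subset_left n2 _ subset_rfl fun h => by
            obtain ⟨x, hx⟩ := supp_nonempty n1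
            exact disjoint_left.1 hd' (supp_mono inter_subset_right hx)
              (supp_mono inter_subset_right (h.ge (mem_univ x)))
          have b4 := (h2 C c1.1 c1.2).1
          have b5 := le (supp C)
          omega
      ex := by
        refine ⟨Fin (2 * k + 2), inferInstance, ⊤, Or.inl ⟨_, subset_rfl, ⟨s(0, 1), by simp⟩, ?_⟩⟩
        have b1 : (supp (⊤ : SimpleGraph (Fin (2 * k + 2))).edgeSet).ncard ≤ 2 * k + 2 := by
          simpa using ncard_le_ncard (subset_univ (supp (⊤ : SimpleGraph (Fin (2 * k + 2))).edgeSet))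
        have b2 : (⊤ : SimpleGraph (Fin (2 * k + 2))).edgeSet.ncard = (k + 1) * (2 * k + 1) := by
          rw [← SimpleGraph.coe_edgeFinset, ncard_coe_finset,
            SimpleGraph.card_edgeFinset_top_eq_card_choose_two, Fintype.card_fin,
            Nat.choose_two_right]
          exact Nat.div_eq_of_eq_mul_left two_pos (by simp only [Nat.add_succ_sub_one]; ring)
        have b3 := Nat.mul_le_mul_left k b1
        rw [b2]
        nlinarith }
  refine ⟨S.fam, S.matroidal, S.induces Γ N hE fun I hI => ⟨?_, fun h => ?_⟩⟩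
  · rintro h (⟨G, g1, g2⟩ | ⟨C, c1, φ, c2⟩)
    · exact h1 G (h.subset g1) g2
    · obtain ⟨σ, hσ⟩ := exists_perm φ (Function.Embedding.refl V0) fun x _ => ⟨x, rfl⟩
      obtain rfl : σ.toEmbedding = φ := Function.Embedding.ext hσ
      by_cases h0 : σ = 1
      · subst h0
        exact c1.1.not_indep (h.subset (by simpa using c2))
      · have b1 := (h2 C c1.1 c1.2).2.2 σ h0
        have b2 := (h2 C c1.1 c1.2).1
        have b3 : C.ncard ≤ (Γ.edgeSet ∩ Sym2.map σ '' Γ.edgeSet).ncard := by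
          rw [← ncard_map σ.toEmbedding C]
          exact ncard_le_ncard (subset_inter (c2.trans hI)
            (image_mono (hE ▸ c1.1.subset_ground)))
        omega
  · by_contra hn
    obtain ⟨C, c1, c2⟩ := (N.dep_of_not_indep hn (hE ▸ hI)).exists_isCircuit_subset
    exact h (mono _ _ (by simpa using c1) (circ (Function.Embedding.refl V0) C c2))

end Pool.Agent.MP_1a6d08_co

end MrgPart1

-- ======== part 2: formerly Pool.Agent.MP_1a6d08_co.Nec
section MrgPart2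

/-!
Matroidal families of graphs: the dimension bound and the necessary condition for uniform matroids.
-/

open Set

namespace Pool.Agent.MP_1a6d08_co

variable {P : Set FinGraph}

theorem Induces.indep {V : Type} {Γ : SimpleGraph V} {N : Matroid (Sym2 V)} (h : Induces P Γ N)
    (I : Set (Sym2 V)) : N.Indep I ↔ I ⊆ Γ.edgeSet ∧ ∀ C ⊆ I, ¬Cp P C := by
  constructor
  · exact fun hI => ⟨h.1 ▸ hI.subset_ground, fun C h1 h2 =>
      ((h.circ C).2 ⟨h2, h1.trans (h.1 ▸ hI.subset_ground)⟩).not_indep (hI.subset h1)⟩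
  · rintro ⟨h1, h2⟩
    by_contra hn
    obtain ⟨C, c1, c2⟩ := (N.dep_of_not_indep hn (h.1 ▸ h1)).exists_isCircuit_subset
    exact h2 C c1 ((h.circ C).1 c2).1

theorem Matroidal.adj (hP : Matroidal P) {p : FinGraph} (hp : p ∈ P) (u : Fin p.1) :
    ∃ w, p.2.Adj u w := by
  obtain ⟨N, hN⟩ := hP.2.2 _ p.2
  obtain ⟨e, he⟩ := ((hN.circ p.2.edgeSet).2
    ⟨⟨p, hp, Function.Embedding.refl _, by simp⟩, subset_rfl⟩).nonempty
  induction e using Sym2.ind with
  | _ a b =>
    obtain ⟨w⟩ := (hP.2.1 p hp).1 u a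
    cases w with
    | nil => exact ⟨b, he⟩
    | cons h _ => exact ⟨_, h⟩

theorem Matroidal.cp_map (hP : Matroidal P) {V W : Type} (φ : V ↪ W) {C : Set (Sym2 V)}
    (h : Cp P (Sym2.map φ '' C)) : Cp P C := by
  obtain ⟨p, hp, ψ, e⟩ := h
  have h1 : ∀ u, ∃ y, φ y = ψ u := fun u => by
    obtain ⟨w, hw⟩ := hP.adj hp u
    refine sr' φ C ⟨s(ψ u, ψ w), ?_, by simp⟩
    rw [e]
    exact (mem_map_image ψ _ u w).2 hw
  choose χ hχ using h1
  refine ⟨p, hp, ⟨χ, fun x y e => ψ.injective (by rw [← hχ, ← hχ, e])⟩,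
    (image_injective.2 (Sym2.map.injective φ.injective)) ?_⟩
  rw [e, image_image]
  refine image_congr fun c _ => ?_
  rw [Sym2.map_map]
  congr 1
  exact funext fun x => (hχ x).symm

theorem Matroidal.cp_split (hP : Matroidal P) {V : Type} {C I J : Set (Sym2 V)} (h : Cp P C)
    (hC : C ⊆ I ∪ J) (hd : Disjoint (supp I) (supp J)) : C ⊆ I ∨ C ⊆ J := by
  obtain ⟨p, hp, φ, rfl⟩ := h
  have h1 : ∀ u w, p.2.Adj u w → φ u ∈ supp I → s(φ u, φ w) ∈ I := fun u w a hu =>
    (hC ((mem_map_image φ _ u w).2 a)).resolve_right fun h => disjoint_left.1 hd hu ⟨_, h, by simp⟩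
  by_cases h0 : ∃ u, φ u ∈ supp I
  · obtain ⟨u, hu⟩ := h0
    have h2 : ∀ w, φ w ∈ supp I := fun w => by
      have := (p.2.reachable_iff_reflTransGen u w).1 ((hP.2.1 p hp).1 u w)
      induction this with
      | refl => exact hu
      | tail _ a ih => exact ⟨_, h1 _ _ a ih, by simp⟩
    left
    rintro _ ⟨e, he, rfl⟩
    induction e using Sym2.ind with
    | _ a b => exact h1 a b he (h2 a)
  · right
    rintro _ ⟨e, he, rfl⟩
    induction e using Sym2.ind with
    | _ a b => exact (hC ⟨_, he, rfl⟩).resolve_left fun h => h0 ⟨a, _, h, by simp⟩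

/-- the dimension bound -/
theorem Matroidal.span_bound (hP : Matroidal P) {p : FinGraph} (hp : p ∈ P) (x : Fin p.1)
    {V : Type} [Finite V] {I : Set (Sym2 V)} (hI : I ⊆ (⊤ : SimpleGraph V).edgeSet)
    (hf : ∀ C ⊆ I, ¬Cp P C) :
    I.ncard + (supp I).ncard ≤ (p.2.neighborSet x).ncard * (supp I).ncard := by
  classical
  obtain ⟨b, hb⟩ := hP.adj hp x
  obtain ⟨N, hN⟩ := hP.2.2 (V ⊕ Fin p.1) ⊤
  let K : Set (Sym2 (V ⊕ Fin p.1)) := Sym2.map Sum.inr '' (⊤ : SimpleGraph (Fin p.1)).edgeSet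
  have hK : K ⊆ N.E := by
    rintro _ ⟨e, he, rfl⟩
    induction e using Sym2.ind with
    | _ a c => rw [hN.1]; simpa using he
  obtain ⟨B0, hB0⟩ := N.exists_isBasis K hK
  let St : Set (Sym2 (V ⊕ Fin p.1)) := (fun t : V × Fin p.1 => s(Sum.inl t.1, Sum.inr t.2)) ''
    (supp I ×ˢ (p.2.neighborSet x \ {b}))
  have hSt : St ⊆ N.E := by
    rintro _ ⟨t, -, rfl⟩
    rw [hN.1]; simp
  have c0 : ∀ a c : Fin p.1, a ≠ c → s(Sum.inr a, Sum.inr c) ∈ N.closure (B0 ∪ St) := fun a c h =>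
    N.closure_subset_closure subset_union_left (hB0.subset_closure ⟨s(a, c), h, rfl⟩)
  have step : ∀ h : Fin p.1 ↪ V ⊕ Fin p.1, (∀ u w, p.2.Adj u w → s(u, w) ≠ s(x, b) →
      s(h u, h w) ∈ N.closure (B0 ∪ St)) → s(h x, h b) ∈ N.closure (B0 ∪ St) := fun h H => by
    have h1 : N.IsCircuit (Sym2.map h '' p.2.edgeSet) := (hN.circ _).2 ⟨⟨p, hp, h, rfl⟩, by
      rintro _ ⟨e, he, rfl⟩
      induction e using Sym2.ind with
      | _ a c => exact h.injective.ne (p.2.ne_of_adj he)⟩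
    refine N.closure_subset_closure_of_subset_closure ?_
      (h1.mem_closure_sdiff_singleton_of_mem ((mem_map_image h _ x b).2 hb))
    rintro _ ⟨⟨e, he, rfl⟩, h2⟩
    induction e using Sym2.ind with
    | _ a c => exact H a c he fun e => h2 (by rw [e]; rfl)
  have c1 : ∀ y ∈ supp I, ∀ w, s(Sum.inl y, Sum.inr w) ∈ N.closure (B0 ∪ St) := fun y hy w => by
    have st : ∀ a ∈ p.2.neighborSet x \ {b}, s(Sum.inl y, Sum.inr a) ∈ N.closure (B0 ∪ St) :=
      fun a ha => N.subset_closure _ (union_subset hB0.indep.subset_ground hSt)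
        (Or.inr ⟨(y, a), ⟨hy, ha⟩, rfl⟩)
    by_cases hw : w ∈ p.2.neighborSet x \ {b}
    · exact st w hw
    let h : Fin p.1 ↪ V ⊕ Fin p.1 :=
      ⟨fun u => if u = x then Sum.inl y else Sum.inr (Equiv.swap b w u), fun u u' e => by
        by_cases h1 : u = x <;> by_cases h2 : u' = x <;> simp_all⟩
    have e1 : h x = Sum.inl y := if_pos rfl
    have e2 : ∀ u, u ≠ x → h u = Sum.inr (Equiv.swap b w u) := fun u hu => if_neg hu
    have e3 : ∀ a, p.2.Adj x a → s(x, a) ≠ s(x, b) → s(h x, h a) ∈ N.closure (B0 ∪ St) :=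
      fun a ha hn => by
        have h1 : a ≠ b := fun e => hn (by rw [e])
        rw [e1, e2 a ha.ne', Equiv.swap_apply_of_ne_of_ne h1 fun e : a = w => hw (e ▸ ⟨ha, h1⟩)]
        exact st a ⟨ha, h1⟩
    have h3 := step h fun u u' a hn => by
      by_cases h1 : u = x
      · subst h1; exact e3 u' a hn
      by_cases h2 : u' = x
      · subst h2; rw [Sym2.eq_swap] at hn ⊢; exact e3 u a.symm hn
      rw [e2 u h1, e2 u' h2]
      exact c0 _ _ ((Equiv.swap b w).injective.ne a.ne)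
    rwa [e1, e2 b hb.ne', Equiv.swap_apply_left] at h3
  have c2 : ∀ z ∈ supp I, ∀ y ∈ supp I, z ≠ y →
      s(Sum.inl z, Sum.inl y) ∈ N.closure (B0 ∪ St) := fun z hz y hy hzy => by
    let h : Fin p.1 ↪ V ⊕ Fin p.1 :=
      ⟨fun u => if u = x then Sum.inl z else if u = b then Sum.inl y else Sum.inr u, fun u u' e => by
        by_cases h1 : u = x <;> by_cases h2 : u' = x <;> by_cases h3 : u = b <;>
          by_cases h4 : u' = b <;> simp_all⟩
    have e1 : h x = Sum.inl z := if_pos rfl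
    have e2 : h b = Sum.inl y := (if_neg hb.ne').trans (if_pos rfl)
    have e3 : ∀ u, u ≠ x → u ≠ b → h u = Sum.inr u := fun u h1 h2 => (if_neg h1).trans (if_neg h2)
    have e4 : ∀ u u', p.2.Adj u u' → u' ≠ x → u' ≠ b → s(h u, h u') ∈ N.closure (B0 ∪ St) :=
      fun u u' a h1 h2 => by
        rw [e3 u' h1 h2]
        by_cases h3 : u = x
        · rw [h3, e1]; exact c1 z hz u'
        by_cases h4 : u = b
        · rw [h4, e2]; exact c1 y hy u'
        rw [e3 u h3 h4]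
        exact c0 _ _ a.ne
    have h3 := step h fun u u' a hn => by
      by_cases h1 : u' ≠ x ∧ u' ≠ b
      · exact e4 u u' a h1.1 h1.2
      rw [Sym2.eq_swap]
      refine e4 u' u a.symm ?_ ?_ <;> rintro rfl
      · exact h1 ⟨a.ne', fun e => hn (by rw [e])⟩
      · exact h1 ⟨fun e => hn (by rw [e, Sym2.eq_swap]), a.ne'⟩
    rwa [e1, e2] at h3
  let I' : Set (Sym2 (V ⊕ Fin p.1)) := Sym2.map (Function.Embedding.inl) '' I
  have d1 : Disjoint (supp I') (supp B0) := disjoint_left.2 fun u h1 h2 => by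
    obtain ⟨a, rfl⟩ := sr' _ _ h1
    obtain ⟨c, hc⟩ := sr' _ _ (supp_mono hB0.subset h2)
    simp at hc
  have s1 : I' ⊆ N.closure (B0 ∪ St) := by
    rintro _ ⟨e, he, rfl⟩
    induction e using Sym2.ind with
    | _ a c => exact c2 a ⟨_, he, by simp⟩ c ⟨_, he, by simp⟩ (hI he)
  have i1 : N.Indep (I' ∪ B0) := (hN.indep _).2 ⟨hN.1 ▸ union_subset
    (s1.trans (N.closure_subset_ground _)) hB0.indep.subset_ground, fun C h1 h2 => by
      rcases hP.cp_split h2 h1 d1 with h3 | h3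
      · obtain ⟨C', h4, rfl⟩ := subset_image_iff.1 h3
        exact hf C' h4 (hP.cp_map _ h2)
      · exact ((hN.indep _).1 hB0.indep).2 C h3 h2⟩
  have n1 := i1.encard_le_eRk_of_subset (union_subset s1 (subset_union_left.trans
    (N.subset_closure _ (union_subset hB0.indep.subset_ground hSt))))
  rw [N.eRk_closure_eq] at n1
  have n2 := n1.trans (N.eRk_le_encard _)
  rw [← (toFinite _).cast_ncard_eq, ← (toFinite _).cast_ncard_eq, Nat.cast_le,
    ncard_union_eq (disjoint_left.2 fun e h1 h2 => disjoint_left.1 d1 ⟨e, h1, Sym2.out_fst_mem e⟩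
      ⟨e, h2, Sym2.out_fst_mem e⟩), ncard_map] at n2
  have n3 := ncard_union_le B0 St
  have n4 : St.ncard ≤ (supp I).ncard * (p.2.neighborSet x \ {b}).ncard :=
    ncard_prod ▸ ncard_image_le
  have n5 := ncard_sdiff_singleton_add_one (s := p.2.neighborSet x) hb
  rw [← n5]
  nlinarith

theorem two_mul_le {V : Type} [Finite V] {F : Set (Sym2 V)} {S : Set V}
    (hF : F ⊆ (⊤ : SimpleGraph V).edgeSet) (hS : supp F ⊆ S) :
    2 * F.ncard + S.ncard ≤ S.ncard * S.ncard := by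
  classical
  have h1 := Sym2.card_image_offDiag (toFinite S).toFinset
  have h2 : F.ncard ≤ S.ncard.choose 2 := by
    rw [ncard_eq_toFinset_card S, ← h1, ← ncard_coe_finset]
    refine ncard_le_ncard fun e he => ?_
    induction e using Sym2.ind with
    | _ a b =>
      refine Finset.mem_coe.2 (Finset.mem_image.2 ⟨(a, b), ?_, rfl⟩)
      simpa using ⟨hS ⟨_, he, by simp⟩, hS ⟨_, he, by simp⟩, hF he⟩
  rw [Nat.choose_two_right] at h2
  rcases Nat.eq_zero_or_pos S.ncard with h | h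
  · simp_all
  · obtain ⟨t, ht⟩ := Nat.exists_eq_add_of_le' h
    rw [ht] at h2 ⊢
    have := Nat.mul_div_le ((t + 1) * (t + 1 - 1)) 2
    simp only [Nat.add_sub_cancel] at h2 this
    nlinarith

theorem arith {r c d v : ℕ} (hd : 1 ≤ d) (h1 : r ≤ d * v) (h2 : (d + c) * v ≤ 2 * (r + c))
    (h3 : 2 * (r + c) + v ≤ v * v) (h4 : d + c + 1 ≤ v) :
    r + 2 * c = 2 * c ^ 2 ∨ r = 2 * c ^ 2 ∨ 2 * c ^ 2 + c ≤ r := by
  rcases lt_trichotomy d c with h | rfl | h
  · obtain ⟨t, rfl⟩ := Nat.exists_eq_add_of_lt h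
    rcases Nat.eq_zero_or_pos t with rfl | ht
    · obtain rfl : v = 2 * d + 2 := by nlinarith
      left; nlinarith
    · exfalso
      obtain ⟨w, rfl⟩ := Nat.exists_eq_add_of_le h4
      obtain ⟨t, rfl⟩ := Nat.exists_eq_add_of_le' ht
      obtain ⟨d, rfl⟩ := Nat.exists_eq_add_of_le' hd
      nlinarith [Nat.zero_le (t * t), Nat.zero_le (t * d), Nat.zero_le (t * w)]
  · rcases h4.eq_or_lt with rfl | h5
    · right; left; nlinarith
    · right; right; nlinarith
  · right; right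
    have h5 : (2 * c + 1) * (2 * c + 2) ≤ (d + c) * v := Nat.mul_le_mul (by omega) (by omega)
    nlinarith

theorem nec (hP : Matroidal P) {V : Type} [Finite V] {Γ : SimpleGraph V} {N : Matroid (Sym2 V)}
    (hN : Induces P Γ N) {r c : ℕ} (hn : Γ.edgeSet.ncard = r + c)
    (hU : ∀ I ⊆ Γ.edgeSet, N.Indep I ↔ I.ncard ≤ r) (hr : r ≠ 0) (hc : c ≠ 0) :
    r + 2 * c = 2 * c ^ 2 ∨ r = 2 * c ^ 2 ∨ 2 * c ^ 2 + c ≤ r := by
  classical
  have ex : ∃ δ, ∃ p ∈ P, ∃ x, (p.2.neighborSet x).ncard = δ := by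
    obtain ⟨p, hp⟩ := hP.1
    obtain ⟨x⟩ := (hP.2.1 p hp).nonempty
    exact ⟨_, p, hp, x, rfl⟩
  obtain ⟨p, hp, x, hx⟩ := Nat.find_spec ex
  obtain ⟨I, i1, i2⟩ := exists_subset_card_eq (s := Γ.edgeSet) (n := r) (by omega)
  have h1 := hP.span_bound hp x (i1.trans (SimpleGraph.edgeSet_mono le_top))
    ((hN.indep I).1 ((hU I i1).2 i2.le)).2
  rw [hx, i2] at h1
  obtain ⟨d, hd⟩ : ∃ d, Nat.find ex = d + 1 := Nat.exists_eq_add_of_le' (by
    by_contra h
    rw [show Nat.find ex = 0 by omega] at h1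
    omega)
  have h2 : r ≤ d * (supp Γ.edgeSet).ncard := le_trans (by rw [hd] at h1; nlinarith)
    (Nat.mul_le_mul_left d (ncard_le_ncard (supp_mono i1)))
  have d1 : 1 ≤ d := Nat.pos_of_ne_zero fun h => by rw [h] at h2; omega
  have deg : ∀ z ∈ supp Γ.edgeSet, d + c ≤ (Γ.neighborSet z).ncard := by
    rintro z ⟨e, he, hz⟩
    obtain ⟨z', rfl⟩ := Sym2.mem_iff_exists.1 hz
    have inj : Function.Injective fun y => s(z, y) := fun a b h => Sym2.congr_right.1 h
    have a1 : 0 < (Γ.neighborSet z).ncard := (ncard_pos).2 ⟨z', he⟩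
    have a2 : (fun y => s(z, y)) '' Γ.neighborSet z ⊆ Γ.edgeSet := by
      rintro _ ⟨y, hy, rfl⟩; exact hy
    have a3 := ncard_sdiff_add_ncard_of_subset a2
    rw [ncard_image_of_injective _ inj] at a3
    obtain ⟨A, b1, b2⟩ := exists_subset_card_eq (s := Γ.neighborSet z)
      (n := max 1 ((Γ.neighborSet z).ncard + 1 - c)) (by omega)
    obtain ⟨B, b3, b4⟩ := exists_subset_card_eq
      (s := Γ.edgeSet \ (fun y => s(z, y)) '' Γ.neighborSet z) (n := r + 1 - A.ncard) (by omega)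
    have c1 : (fun y => s(z, y)) '' A ∪ B ⊆ Γ.edgeSet :=
      union_subset ((image_mono b1).trans a2) (b3.trans sdiff_subset)
    have c2 : ((fun y => s(z, y)) '' A ∪ B).ncard = r + 1 := by
      rw [ncard_union_eq (disjoint_left.2 fun e h1 h2 => (b3 h2).2 (image_mono b1 h1)),
        ncard_image_of_injective _ inj]
      omega
    have c3 : N.IsCircuit ((fun y => s(z, y)) '' A ∪ B) :=
      Matroid.isCircuit_iff_forall_ssubset.2 ⟨⟨fun h => by have := (hU _ c1).1 h; omega, hN.1 ▸ c1⟩,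
        fun J hJ => (hU J (hJ.subset.trans c1)).2 (by have := ncard_lt_ncard hJ; omega)⟩
    obtain ⟨q, hq, φ, e⟩ := ((hN.circ _).1 c3).1
    obtain ⟨a, ha⟩ : A.Nonempty := nonempty_of_ncard_ne_zero (by omega)
    obtain ⟨u, rfl⟩ := sr' φ q.2.edgeSet ⟨s(z, a), e ▸ Or.inl ⟨a, ha, rfl⟩, Sym2.mem_mk_left z a⟩
    have c4 : (q.2.neighborSet u).ncard ≤ A.ncard :=
      ncard_le_ncard_of_injOn φ (fun w hw => by
        have h3 : s(φ u, φ w) ∈ (fun y => s(φ u, y)) '' A ∪ B := e ▸ (mem_map_image φ _ u w).2 hw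
        rcases h3 with ⟨y, h4, h5⟩ | h4
        · exact inj h5 ▸ h4
        · exact absurd ⟨φ w, (b3 h4).1, rfl⟩ (b3 h4).2) φ.injective.injOn
    have c5 := Nat.find_min' ex ⟨q, hq, u, rfl⟩
    omega
  have := Fintype.ofFinite V
  refine arith d1 h2 ?_ (hn ▸ two_mul_le (SimpleGraph.edgeSet_mono le_top) subset_rfl) ?_
  · have a1 := Γ.sum_degrees_eq_twice_card_edges
    rw [← hn, ← SimpleGraph.coe_edgeFinset, ncard_coe_finset, ← a1, SimpleGraph.coe_edgeFinset,
      ncard_eq_toFinset_card, mul_comm, ← smul_eq_mul]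
    refine le_trans (Finset.card_nsmul_le_sum _ (fun z => Γ.degree z) _ fun z hz => ?_)
      (Finset.sum_le_sum_of_subset (Finset.subset_univ _))
    have a2 := deg z (by simpa using hz)
    rwa [← SimpleGraph.coe_neighborFinset, ncard_coe_finset] at a2
  · obtain ⟨e, he⟩ : Γ.edgeSet.Nonempty := nonempty_of_ncard_ne_zero (by omega)
    obtain ⟨z, hz⟩ := supp_nonempty ⟨e, he⟩
    have a1 := deg z hz
    have a2 : (Γ.neighborSet z).ncard < (supp Γ.edgeSet).ncard :=
      ncard_lt_ncard ⟨fun y hy => ⟨s(z, y), hy, by simp⟩, fun h => Γ.irrefl (h hz)⟩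
    omega

end Pool.Agent.MP_1a6d08_co

end MrgPart2

-- marker of a merged file
example : 731051 + 613268 = 731051 + 613268 := rfl
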