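import Pool.Agent.MP_1a6d08_co.Rand

/-!
Matroidal families of graphs: every matroid of large girth is in the class.
-/

open Set

namespace Pool.Agent.MP_1a6d08_co

theorem circ_out {v H : ℕ} [NeZero v] (S : Set (ZMod v)) :
    (Circ v H \ {e | ∀ y ∈ e, y ∈ S}).ncard ≤ 2 * (Sᶜ.ncard * H) := by
  have h1 : (Sᶜ ×ˢ (univ : Set (Fin H))).ncard = Sᶜ.ncard * H := by
    rw [ncard_prod, ncard_univ, Nat.card_eq_fintype_card, Fintype.card_fin]
  rw [two_mul, ← h1]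
  refine le_trans (ncard_le_ncard ?_) ((ncard_union_le _ _).trans (Nat.add_le_add
    (ncard_image_le (f := fun p => ce p.1 p.2))
    (ncard_image_le (f := fun p => ce (p.1 - ((p.2 + 1 : ℕ) : ZMod v)) p.2))))
  rintro _ ⟨⟨⟨x, i⟩, rfl⟩, h⟩
  by_cases hx : x ∈ S
  · refine Or.inr ⟨(x + ((i + 1 : ℕ) : ZMod v), i), ⟨fun h2 => h (Sym2.ball.2 ⟨hx, h2⟩), trivial⟩, ?_⟩
    simp only [add_sub_cancel_right]
  · exact Or.inl ⟨(x, i), ⟨hx, trivial⟩, rfl⟩

theorem num {p m v : ℕ} (h1 : 100 ≤ p) (h2 : 15 * m + 5 ≤ p) (hv : v ≤ 120 * (p + 1)) :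
    (2 : ℝ) ^ (6 * m + 2) * (2 * ((v : ℝ) ^ 2 * (3 / 4) ^ (2 * p))) < 1 := by
  have a1 : 28800 * ((p : ℝ) + 1) ^ 2 * (3 / 4) ^ p < 1 := by
    clear h2 hv
    induction p, h1 using Nat.le_induction with
    | base => norm_num
    | succ p hp ih =>
      have b1 : (100 : ℝ) ≤ p := by exact_mod_cast hp
      have b2 : (0 : ℝ) < (3 / 4) ^ p := by positivity
      have b3 : ((p : ℝ) + 1 + 1) ^ 2 * (3 / 4) ≤ (p + 1) ^ 2 := by nlinarith
      push_cast
      rw [pow_succ (3 / 4 : ℝ)]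
      nlinarith
  have a2 : (2 : ℝ) ^ (6 * m + 2) * (3 / 4) ^ p ≤ 1 := by
    calc _ ≤ (2 : ℝ) ^ (2 * (3 * m + 1)) * (3 / 4) ^ (5 * (3 * m + 1)) := by
          rw [show 2 * (3 * m + 1) = 6 * m + 2 by ring]
          gcongr _ * ?_
          exact pow_le_pow_of_le_one (by norm_num) (by norm_num) (by omega)
      _ ≤ 1 := by
          rw [pow_mul, pow_mul, ← mul_pow]
          exact pow_le_one₀ (by norm_num) (by norm_num)
  have a3 : (v : ℝ) ^ 2 ≤ (120 * (p + 1)) ^ 2 := by gcongr; exact_mod_cast hv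
  have a4 : (0 : ℝ) < (3 / 4) ^ p := by positivity
  have a5 : 2 * ((v : ℝ) ^ 2 * (3 / 4) ^ p) < 1 := by nlinarith
  have a6 : 0 ≤ 2 * ((v : ℝ) ^ 2 * (3 / 4) ^ p) := by positivity
  rw [two_mul p, pow_add (3 / 4 : ℝ)]
  nlinarith

theorem small_case {g s u l m : ℕ} (h1 : 2 * g + s ≤ s * s) (g0 : 0 < g) (hs : s < 4 * u)
    (hl : l ≤ 2 * u) (hm : m < u) : g + l + 2 * m ≤ 2 * u * s := by
  have a2 : 2 ≤ s := by
    by_contra h0
    have := Nat.mul_le_mul_left s (show s ≤ 1 by omega)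
    omega
  obtain ⟨a, rfl⟩ := Nat.exists_eq_add_of_le a2
  obtain ⟨b, hb⟩ := Nat.exists_eq_add_of_lt hs
  have h2 := congrArg (· * a) hb
  nlinarith [Nat.zero_le (a * b)]

theorem big_case {g x y s t u l m H N r c K : ℕ} (a1 : 2 * (g + x) + s ≤ s * s) (a2 : x + y = N)
    (a3 : y ≤ 2 * (t * H)) (a5 : 1 ≤ t) (k1 : 2 * K + (s + t) = (s + t) * (s + t))
    (hN : K = N + (r + c)) (v1 : 2 * u * (s + t) = r + l) (hc : c ≤ m + 1)
    (a6 : 4 * u + 4 * H + (6 * m + 2) + 1 ≤ s + t + s) : g + l + 2 * m ≤ 2 * u * s := by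
  have b1 := Nat.mul_le_mul_left t a6
  have b2 := Nat.mul_le_mul_right (6 * m + 2) a5
  nlinarith

theorem exists_graph {m c r : ℕ} (hc : c ≤ m + 1) (hn : 5 * 10 ^ 7 * (m + 1) ^ 2 ≤ r + c) :
    ∃ v k l : ℕ, ∃ F ⊆ (⊤ : SimpleGraph (ZMod v)).edgeSet, v ≠ 0 ∧ F.ncard = r + c ∧
      k * v = r + l ∧ (∀ G ⊆ F, G.Nonempty → ∀ S : Set (ZMod v), supp G ⊆ S → S ≠ univ →
        G.ncard + l + 2 * m ≤ k * S.ncard) ∧
      ∀ σ : Equiv.Perm (ZMod v), σ ≠ 1 → (F ∩ Sym2.map σ '' F).ncard + 2 * m ≤ r := by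
  obtain ⟨u, u1, u2⟩ : ∃ u, 10 * (u * u) ≤ r ∧ r < 10 * ((u + 1) * (u + 1)) := by
    have h1 := Nat.sqrt_le (r / 10)
    have h2 := Nat.lt_succ_sqrt (r / 10)
    exact ⟨(r / 10).sqrt, by omega, by simp only [Nat.succ_eq_add_one] at h2; omega⟩
  have u3 : 2100 * (m + 1) ≤ u := by
    by_contra h
    have h1 : u + 1 ≤ 2100 * (m + 1) := by omega
    have h2 := Nat.mul_le_mul h1 h1
    nlinarith
  obtain ⟨v, l, v1, l1⟩ : ∃ v l, 2 * u * v = r + l ∧ l ≤ 2 * u := by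
    have h1 := Nat.div_add_mod r (2 * u)
    have h2 := Nat.mod_lt r (show 0 < 2 * u by omega)
    exact ⟨r / (2 * u) + 1, 2 * u - r % (2 * u), by rw [mul_add]; omega, by omega⟩
  have v2 : 5 * u ≤ v := by
    by_contra h
    have h1 := Nat.mul_le_mul_left (2 * u) (show v + 1 ≤ 5 * u by omega)
    nlinarith
  have v3 : v ≤ 5 * u + 11 := by
    by_contra h
    have h1 := Nat.mul_le_mul_left (2 * u) (show 5 * u + 12 ≤ v by omega)
    nlinarith
  have : NeZero v := ⟨by omega⟩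
  have k1 := top_card (ZMod v)
  rw [Nat.card_zmod] at k1
  obtain ⟨N, hN⟩ : ∃ N, (⊤ : SimpleGraph (ZMod v)).edgeSet.ncard = N + (r + c) :=
    Nat.exists_eq_add_of_le' (by nlinarith [Nat.mul_le_mul_right v v2])
  have n1 := Nat.div_add_mod N v
  have n2 := Nat.mod_lt N (show 0 < v by omega)
  generalize N / v = h at n1
  generalize N % v = j at n1 n2
  have h1 : u ≤ 2 * h + 3 := by
    by_contra h0
    have := Nat.mul_le_mul_right v (show 2 * h + 4 + 4 * u ≤ v by omega)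
    nlinarith
  have h2 : 2 * h ≤ u + 11 := by
    by_contra h0
    have := Nat.mul_le_mul_right v (show v + 1 ≤ 2 * h + 4 * u by omega)
    nlinarith
  obtain ⟨Δ, d1, d2, d3⟩ := exists_asym (v := v) (h := h) (j := j) (q := 2 * (u / 20))
    (t := 6 * m + 2) (by omega) n2.le (by omega) (num (by omega) (by omega) (by omega))
  have d4 := d1.trans (circ_top (by omega))
  have d5 : Δ.ncard = N := by rw [d2, ← n1, mul_comm]
  have f1 := ncard_sdiff_add_ncard_of_subset d4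
  refine ⟨v, 2 * u, l, _ \ Δ, sdiff_subset, by omega, by omega, v1, fun G g1 g2 S s1 s2 => ?_,
    fun σ hσ => ?_⟩
  · have g3 := (ncard_pos).2 g2
    rcases lt_or_ge S.ncard (4 * u) with hs | hs
    · exact small_case (two_mul_le (g1.trans sdiff_subset) s1) g3 hs l1 (by omega)
    · have a1 := two_mul_le (F := G ∪ Δ ∩ {e | ∀ y ∈ e, y ∈ S}) (S := S)
        (union_subset (g1.trans sdiff_subset) (inter_subset_left.trans d4))
        fun x ⟨e, he, hx⟩ => he.elim (fun h => s1 ⟨e, h, hx⟩) fun h => h.2 x hx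
      rw [ncard_union_eq (disjoint_left.2 fun e h1 h2 => (g1 h1).2 h2.1)] at a1
      have a2 := ncard_inter_add_ncard_sdiff_eq_ncard Δ {e | ∀ y ∈ e, y ∈ S}
      have a3 := (ncard_le_ncard (sdiff_subset_sdiff_left d1)).trans (circ_out S)
      have a4 := ncard_add_ncard_compl S
      rw [Nat.card_zmod] at a4
      have a5 : 1 ≤ Sᶜ.ncard := (ncard_pos).2 (nonempty_compl.2 s2)
      exact big_case a1 (a2.trans d5) a3 a5 (a4.symm ▸ k1) hN (a4.symm ▸ v1) hc (by omega)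
  · have a1 := d3 σ⁻¹ (inv_ne_one.2 hσ)
    set F := (⊤ : SimpleGraph (ZMod v)).edgeSet \ Δ
    have a2 := ncard_inter_add_ncard_sdiff_eq_ncard F (Sym2.map σ '' F)
    have a3 := ncard_inter_add_ncard_sdiff_eq_ncard (Sym2.map σ '' F) F
    rw [inter_comm, ncard_image_of_injective _ (Sym2.map.injective σ.injective)] at a3
    have a4 := (a1.trans (ncard_le_ncard (t := F \ Sym2.map σ '' F ∪ Sym2.map σ '' F \ F)
      fun e he => ?_)).trans (ncard_union_le _ _)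
    · omega
    have b1 : e ∈ Sym2.map σ '' F ↔ Sym2.map (σ⁻¹ : Equiv.Perm _) e ∉ Δ := by
      constructor
      · rintro ⟨x, hx, rfl⟩
        simpa [Sym2.map_map] using hx.2
      · refine fun h => ⟨_, ⟨?_, h⟩, by simp [Sym2.map_map]⟩
        have := he.1
        induction e using Sym2.ind with
        | _ a b => simpa using this
    have b2 : e ∈ F ↔ e ∉ Δ := and_iff_right he.1
    have b3 := he.2
    change e ∈ F ∧ e ∉ Sym2.map σ '' F ∨ e ∈ Sym2.map σ '' F ∧ e ∉ F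
    rw [b1, b2]
    tauto

theorem large {α : Type} (M : Matroid α) (hM : M.E.Finite) {m : ℕ}
    (hn : 5 * 10 ^ 7 * (m + 1) ^ 2 ≤ M.E.ncard)
    (hg : ∀ C, M.IsCircuit C → M.E.ncard ≤ C.ncard + m) : InClass M := by
  obtain ⟨B, hB⟩ := M.exists_isBase
  have b1 : ∀ I, M.Indep I → I.ncard ≤ B.ncard := fun I hI => by
    obtain ⟨B', h1, h2⟩ := hI.exists_isBase_superset
    exact (ncard_le_ncard h2 (hM.subset h1.subset_ground)).trans (h1.ncard_eq_ncard_of_isBase hB).le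
  have b2 : ∀ I ⊆ M.E, ¬M.Indep I → M.E.ncard ≤ I.ncard + m := fun I h1 h2 => by
    obtain ⟨C, c1, c2⟩ := (M.dep_of_not_indep h2 h1).exists_isCircuit_subset
    exact (hg C c2).trans (Nat.add_le_add_right (ncard_le_ncard c1 (hM.subset h1)) m)
  obtain ⟨c, hc⟩ := Nat.exists_eq_add_of_le (ncard_le_ncard hB.subset_ground hM)
  by_cases h0 : M.E ⊆ B
  · exact suf M hM hc (fun I hI => ⟨b1 I, fun _ => hB.indep.subset (hI.trans h0)⟩)
      (Or.inr (Or.inl (by have := ncard_le_ncard h0 (hM.subset hB.subset_ground); omega)))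
  obtain ⟨e, e1, e2⟩ := not_subset.1 h0
  have b3 := b2 _ (insert_subset e1 hB.subset_ground) (hB.insert_dep ⟨e1, e2⟩).not_indep
  rw [ncard_insert_of_notMem e2 (hM.subset hB.subset_ground)] at b3
  obtain ⟨v, k, l, F, f1, f2, f3, f4, f5, f6⟩ := exists_graph (m := m) (c := c) (r := B.ncard)
    (by omega) (hc ▸ hn)
  have : NeZero v := ⟨f2⟩
  have b4 : B.ncard < M.E.ncard := ncard_lt_ncard ⟨hB.subset_ground, h0⟩ hM
  refine inClass_of M hM F f1 (f3.trans hc.symm) fun Γ N e1 e2 t1 t2 =>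
    realize Γ N (e2.trans e1.symm) k l m (fun I hI h => ?_) fun C hC _ => ⟨?_, fun G g1 =>
      f5 G (g1.trans (e2 ▸ hC.subset_ground)), fun σ hσ => ?_⟩
  · refine absurd h.2 (not_lt.2 ?_)
    by_cases hS : supp I = univ
    · obtain ⟨I', i1, i2⟩ := t1 I hI
      have := b1 I' i1
      rw [hS, ncard_univ, Nat.card_zmod]
      omega
    · have := f5 I (e2 ▸ hI.subset_ground) h.1 _ subset_rfl hS
      omega
  · obtain ⟨I, i1, i2, i3⟩ := t2 C (e2 ▸ hC.subset_ground) hC.not_indep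
    have := b2 I i1 i2
    rw [Nat.card_zmod]
    omega
  · have := f6 σ hσ
    rw [e1, Nat.card_zmod]
    omega

end Pool.Agent.MP_1a6d08_co
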