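import Mathlib
import Pool.Agent.MP_1a6d08_co.Large

/-!
Matroidal families of graphs: every finite matroid is a contraction of a member of the class.
-/

open Set

namespace Pool.Agent.MP_1a6d08_co

theorem exists_lift {β : Type} (N : Matroid β) (hN : N.E.Finite) (T : Set β) (hT : T.Finite)
    (hd : Disjoint N.E T) : ∃ M : Matroid β, M.E = N.E ∪ T ∧ M.contract T = N ∧
      ∀ C, M.IsCircuit C → T.ncard < C.ncard := by
  have hE := hN.union hT
  have fin : ∀ X ⊆ N.E ∪ T, ∃ k : ℕ, N.eRk X = k := fun X hX =>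
    (ENat.ne_top_iff_exists.1 ((N.eRk_le_encard X).trans_lt (hE.subset hX).encard_lt_top).ne).imp
      fun _ h => h.symm
  let M : Matroid β := (IndepMatroid.ofFinite hE
    (fun X => X ⊆ N.E ∪ T ∧ (X.ncard : ℕ∞) ≤ T.ncard + N.eRk X) ⟨empty_subset _, by simp⟩
    (fun I J hJ h => ⟨h.trans hJ.1, by
      have a1 := N.eRk_union_le_eRk_add_encard I (J \ I)
      have a2 := ncard_sdiff_add_ncard_of_subset h (hE.subset hJ.1)
      have a3 := hJ.2
      obtain ⟨a, ha⟩ := fin I (h.trans hJ.1)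
      obtain ⟨b, hb⟩ := fin J hJ.1
      rw [union_sdiff_cancel h, ← ((hE.subset hJ.1).subset sdiff_subset).cast_ncard_eq, ha, hb] at a1
      rw [hb] at a3
      rw [ha]
      norm_cast at a1 a3 ⊢
      omega⟩)
    (fun I J hI hJ h => by
      obtain ⟨a, ha⟩ := fin I hI.1
      obtain ⟨b, hb⟩ := fin J hJ.1
      have a1 := hI.2
      have a2 := hJ.2
      rw [ha] at a1
      rw [hb] at a2
      norm_cast at a1 a2
      by_cases hab : a < b
      · obtain ⟨e, e1, e2⟩ := N.exists_eRk_insert_eq_add_one_of_lt (X := I) (Y := J)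
          (by rw [ha, hb]; exact_mod_cast hab)
        refine ⟨e, e1.1, e1.2, insert_subset (hJ.1 e1.1) hI.1, ?_⟩
        rw [e2, ha, ncard_insert_of_notMem e1.2 (hE.subset hI.1)]
        norm_cast
        omega
      · obtain ⟨e, e1, e2⟩ := exists_mem_notMem_of_ncard_lt_ncard h (hE.subset hI.1)
        refine ⟨e, e1, e2, insert_subset (hJ.1 e1) hI.1,
          le_trans ?_ (add_le_add_right (N.eRk_mono (subset_insert e I)) _)⟩
        rw [ha, ncard_insert_of_notMem e2 (hE.subset hI.1)]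
        norm_cast
        omega)
    fun I hI => hI.1).matroid
  have hM : ∀ X, M.Indep X ↔ X ⊆ N.E ∪ T ∧ (X.ncard : ℕ∞) ≤ T.ncard + N.eRk X := fun X => Iff.rfl
  refine ⟨M, rfl, Matroid.ext_indep ?_ fun I hI => ?_, fun C hC => ?_⟩
  · exact union_sdiff_cancel_right (disjoint_iff_inter_eq_empty.1 hd).le
  · have h1 : I ⊆ N.E := fun x hx => (hI hx).1.resolve_right (hI hx).2
    have h2 := hN.subset h1
    rw [((hM T).2 ⟨subset_union_right, le_self_add⟩).contract_indep_iff, hM,
      and_iff_right (hd.mono_left h1), and_iff_right (union_subset_union_left T h1),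
      ncard_union_eq (hd.mono_left h1) h2 hT, ← N.eRk_inter_ground, union_inter_distrib_right,
      disjoint_iff_inter_eq_empty.1 hd.symm, union_empty, N.eRk_inter_ground,
      Matroid.indep_iff_eRk_eq_encard_of_finite h2, ← h2.cast_ncard_eq]
    have a1 := N.eRk_le_encard I
    obtain ⟨a, ha⟩ := fin I (h1.trans subset_union_left)
    rw [← h2.cast_ncard_eq, ha] at a1
    rw [ha]
    norm_cast at a1 ⊢
    omega
  · by_contra h
    exact hC.not_indep ((hM C).2 ⟨hC.subset_ground,
      (Nat.cast_le.2 (not_lt.1 h)).trans le_self_add⟩)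

theorem every_minor {α : Type} (N : Matroid α) (hN : N.E.Finite) :
    ∃ (β : Type) (M : Matroid β) (T : Set β) (f : α ↪ β),
      M.E.Finite ∧ InClass M ∧ M.contract T = N.mapEmbedding f := by
  let N' : Matroid (α ⊕ ℕ) := N.mapEmbedding Function.Embedding.inl
  have h1 : N'.E.Finite := hN.image _
  let T : Set (α ⊕ ℕ) := Sum.inr '' Iio (5 * 10 ^ 7 * (N'.E.ncard + 1) ^ 2)
  have h2 : T.Finite := (finite_Iio _).image _
  have h3 : T.ncard = 5 * 10 ^ 7 * (N'.E.ncard + 1) ^ 2 := by
    rw [ncard_image_of_injective _ Sum.inr_injective, ← Finset.coe_range, ncard_coe_finset,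
      Finset.card_range]
  have h4 : Disjoint N'.E T := disjoint_left.2 (by rintro _ ⟨a, -, rfl⟩ ⟨b, -, h⟩; simp at h)
  obtain ⟨M, m1, m2, m3⟩ := exists_lift N' h1 T h2 h4
  have h5 : M.E.ncard = N'.E.ncard + T.ncard := by rw [m1, ncard_union_eq h4 h1 h2]
  refine ⟨_, M, T, _, m1 ▸ h1.union h2, large M (m1 ▸ h1.union h2) (m := N'.E.ncard)
    (by omega) fun C hC => ?_, m2⟩
  have := m3 C hC
  omega

end Pool.Agent.MP_1a6d08_co
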