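import Mathlib.Tactic.LinearCombination
import Pool.Agent.MP_1a6d08_co.Nec

/-!
Matroidal families of graphs: circulant graphs and the uniform matroids in the class.
-/

open Set

namespace Pool.Agent.MP_1a6d08_co

theorem map_sizes {α β : Type} (M : Matroid α) (f : α → β) (hf : InjOn f M.E) :
    (∀ J, (M.map f hf).Indep J → ∃ I, M.Indep I ∧ I.ncard = J.ncard) ∧
    ∀ J ⊆ (M.map f hf).E, ¬(M.map f hf).Indep J → ∃ I ⊆ M.E, ¬M.Indep I ∧ I.ncard = J.ncard := by
  constructor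
  · intro J hJ
    obtain ⟨I, h1, rfl⟩ := Matroid.map_indep_iff.1 hJ
    exact ⟨I, h1, (hf.mono h1.subset_ground).ncard_image.symm⟩
  · intro J hJ h
    obtain ⟨I, h1, rfl⟩ := subset_image_iff.1 hJ
    exact ⟨I, h1, fun h2 => h ((Matroid.map_image_indep_iff h1).2 h2),
      (hf.mono h1).ncard_image.symm⟩

theorem inClass_of {α : Type} (M : Matroid α) (hM : M.E.Finite) {V : Type} [Finite V] [Nonempty V]
    (F : Set (Sym2 V)) (hF : F ⊆ (⊤ : SimpleGraph V).edgeSet) (hn : F.ncard = M.E.ncard)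
    (H : ∀ (Γ : SimpleGraph V) (N : Matroid (Sym2 V)), Γ.edgeSet = F → N.E = F →
      (∀ J, N.Indep J → ∃ I, M.Indep I ∧ I.ncard = J.ncard) →
      (∀ J ⊆ F, ¬N.Indep J → ∃ I ⊆ M.E, ¬M.Indep I ∧ I.ncard = J.ncard) →
      ∃ P, Matroidal P ∧ Induces P Γ N) : InClass M := by
  have : Nonempty (Sym2 V) := ⟨Sym2.diag (Classical.arbitrary V)⟩
  obtain ⟨f, hf⟩ := hM.exists_bijOn_of_encard_eq (t := F) (by
    rw [← hM.cast_ncard_eq, ← (toFinite F).cast_ncard_eq, hn])
  have e : (M.map f hf.injOn).E = F := hf.image_eq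
  obtain ⟨P, h⟩ := H (SimpleGraph.fromEdgeSet F) (M.map f hf.injOn) (by
    rw [SimpleGraph.edgeSet_fromEdgeSet]
    exact sdiff_eq_left.2 (disjoint_left.2 fun x h1 h2 => by simpa [h2] using hF h1)) e
    (map_sizes M f _).1 fun J hJ => (map_sizes M f _).2 J (hJ.trans e.ge)
  exact ⟨P, V, inferInstance, _, f, hf.injOn, h⟩

theorem unif_of {α : Type} (M : Matroid α) (hM : M.E.Finite) {r : ℕ}
    (hU : ∀ I ⊆ M.E, M.Indep I ↔ I.ncard ≤ r) {V : Type} [Finite V] [Nonempty V]
    (F : Set (Sym2 V)) (hF : F ⊆ (⊤ : SimpleGraph V).edgeSet) (hn : F.ncard = M.E.ncard) (k l : ℕ)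
    (h1 : k * Nat.card V ≤ r + l ∨ F.ncard ≤ r)
    (h2 : ∀ G ⊆ F, G.Nonempty → G.ncard ≤ r → G.ncard + l ≤ k * (supp G).ncard) : InClass M := by
  refine inClass_of M hM F hF hn fun Γ N e1 e2 t1 t2 => realize Γ N (e2.trans e1.symm) k l 0
    (fun I hI h => ?_) fun C hC h => absurd ⟨hC.nonempty, ?_⟩ h
  · obtain ⟨I', i1, i2⟩ := t1 I hI
    exact absurd (h2 I (e2 ▸ hI.subset_ground) h.1 (i2 ▸ (hU I' i1.subset_ground).1 i1))
      (not_le.2 h.2)
  · obtain ⟨I', i1, i2, i3⟩ := t2 C (e2 ▸ hC.subset_ground) hC.not_indep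
    have a1 := not_le.1 fun h => i2 ((hU I' i1).2 h)
    have a2 : C.ncard ≤ F.ncard := ncard_le_ncard (e2 ▸ hC.subset_ground)
    have a3 := Nat.mul_le_mul_left k (ncard_univ V ▸ ncard_le_ncard (subset_univ (supp C)))
    omega

theorem top_card (V : Type) [Finite V] :
    2 * (⊤ : SimpleGraph V).edgeSet.ncard + Nat.card V = Nat.card V * Nat.card V := by
  classical
  have := Fintype.ofFinite V
  rw [← SimpleGraph.coe_edgeFinset, ncard_coe_finset,
    SimpleGraph.card_edgeFinset_top_eq_card_choose_two, Nat.card_eq_fintype_card]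
  generalize Fintype.card V = n
  induction n with
  | zero => rfl
  | succ n ih => rw [Nat.choose_succ_succ, Nat.choose_one_right]; nlinarith

/-- an edge of a circulant graph -/
def ce {v : ℕ} (x : ZMod v) (i : ℕ) : Sym2 (ZMod v) := s(x, x + ((i + 1 : ℕ) : ZMod v))

theorem cast_ne {v i : ℕ} (h0 : 0 < i) (h : i < v) : (i : ZMod v) ≠ 0 := fun e =>
  absurd (Nat.le_of_dvd h0 ((ZMod.natCast_eq_zero_iff i v).1 e)) (not_le.2 h)

theorem ce_top {v i : ℕ} (x : ZMod v) (h : i + 1 < v) :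
    ce x i ∈ (⊤ : SimpleGraph (ZMod v)).edgeSet := fun e =>
  cast_ne (Nat.succ_pos i) h (left_eq_add.1 e)

theorem ce_inj {v i j : ℕ} {x y : ZMod v} (h : i + j + 2 < v) (e : ce x i = ce y j) :
    x = y ∧ i = j := by
  rcases Sym2.eq_iff.1 e with ⟨rfl, h2⟩ | ⟨h1, h2⟩
  · have := ((ZMod.natCast_eq_natCast_iff _ _ _).1 (add_left_cancel h2)).eq_of_lt_of_lt
      (by omega) (by omega)
    exact ⟨rfl, by omega⟩
  · refine absurd ?_ (cast_ne (i := i + j + 2) (by omega) h)
    push_cast at h1 h2 ⊢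
    linear_combination h2 - h1

/-- the edges of a circulant graph -/
def Circ (v c : ℕ) : Set (Sym2 (ZMod v)) := range fun t : ZMod v × Fin c => ce t.1 t.2

theorem circ_top {v c : ℕ} (h : c < v) : Circ v c ⊆ (⊤ : SimpleGraph (ZMod v)).edgeSet := by
  rintro _ ⟨t, rfl⟩
  exact ce_top _ (by have := t.2.2; omega)

theorem circ_card {v c : ℕ} (h : 2 * c < v) : (Circ v c).ncard = c * v := by
  rw [Circ, ← image_univ, ncard_image_of_injective _ fun s t e => ?_, ncard_univ, Nat.card_prod,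
    Nat.card_zmod, Nat.card_eq_fintype_card, Fintype.card_fin, mul_comm]
  have h1 := ce_inj (by have := s.2.2; have := t.2.2; omega) e
  exact Prod.ext h1.1 (Fin.ext h1.2)

theorem circ_sparse {v c : ℕ} (h : c < v) {S : Set (ZMod v)} (h0 : S.Nonempty) (h1 : S ≠ univ)
    {G : Set (Sym2 (ZMod v))} (hG : G ⊆ Circ v c) (hS : supp G ⊆ S) :
    G.ncard + c ≤ c * S.ncard := by
  have : NeZero v := ⟨by omega⟩
  let a : ℕ → ℕ := fun t => (S ∩ {x | x + (t : ZMod v) ∈ S}).ncard
  let g : ℕ → ℕ := fun n => (Circ v n ∩ {e | ∀ y ∈ e, y ∈ S}).ncard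
  have g0 : g 0 = 0 := by simp [g, Circ, range_eq_empty]
  have g1 : ∀ n, g (n + 1) ≤ g n + a (n + 1) := fun n => by
    refine le_trans (ncard_le_ncard ?_) ((ncard_union_le _ _).trans
      (Nat.add_le_add_left (ncard_image_le (f := fun x => ce x n)) _))
    rintro _ ⟨⟨⟨x, i⟩, rfl⟩, he⟩
    rcases (Nat.lt_succ_iff.1 i.2).eq_or_lt with e | e
    · exact Or.inr ⟨x, ⟨he _ (by simp [ce]), he _ (by simp [ce, e])⟩, congrArg (ce x) e.symm⟩
    · exact Or.inl ⟨⟨(x, ⟨i, e⟩), rfl⟩, he⟩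
  have g2 : G.ncard ≤ g c := ncard_le_ncard fun e he => ⟨hG he, fun y hy => hS ⟨e, he, hy⟩⟩
  have sh : ∀ (T : Set (ZMod v)) (t : ZMod v), {x | x + t ∈ T}.ncard = T.ncard := fun T t =>
    ncard_preimage_of_injective_subset_range (add_left_injective t)
      (by rw [(add_right_surjective t).range_eq]; exact subset_univ _)
  have a0 : ∀ t, a t ≤ S.ncard := fun t => ncard_le_ncard inter_subset_left
  by_cases hA : ∀ t, 0 < t → t ≤ c → a t < S.ncard
  · have key : ∀ n ≤ c, g n + n ≤ n * S.ncard := fun n hn => by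
      induction n with
      | zero => omega
      | succ n ih =>
        have := ih (by omega)
        have := g1 n
        have := hA (n + 1) (by omega) hn
        nlinarith
    have := key c le_rfl
    omega
  push Not at hA
  obtain ⟨t, t0, t1, t2⟩ := hA
  have b1 : {x | x + (t : ZMod v) ∈ S} = S :=
    (eq_of_subset_of_ncard_le (inter_eq_left.1 (eq_of_subset_of_ncard_le inter_subset_left t2))
      (sh S t).le).symm
  obtain ⟨z, z1, z2⟩ : ∃ z ∈ S, z + 1 ∉ S := by
    by_contra hn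
    push Not at hn
    obtain ⟨z, hz⟩ := h0
    have h2 : ∀ n : ℕ, z + n ∈ S := fun n => by
      induction n with
      | zero => simpa using hz
      | succ n ih => push_cast; rw [← add_assoc]; exact hn _ ih
    exact h1 (eq_univ_of_forall fun y => by simpa using h2 (y - z).val)
  have b2 : a 1 + 2 ≤ S.ncard := by
    have c1 : z ≠ z + t := fun e => cast_ne t0 (by omega) (left_eq_add.1 e)
    have c2 : ({z, z + t} : Set (ZMod v)) ⊆ S := pair_subset z1 (b1.ge z1)
    have c3 := ncard_sdiff_add_ncard_of_subset c2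
    rw [ncard_pair c1] at c3
    refine le_trans (Nat.add_le_add_right (ncard_le_ncard ?_) 2) c3.le
    rintro x ⟨x1, x2⟩
    refine ⟨x1, ?_⟩
    rintro (rfl | rfl)
    · exact z2 (by simpa using x2)
    · exact z2 (b1.le (by simpa [add_right_comm] using x2))
  have b3 : ∀ n, a n + a (n + 1) ≤ S.ncard + a 1 := fun n => by
    have c1 := ncard_union_add_ncard_inter {x | x + 1 ∈ S ∩ {x | x + (n : ZMod v) ∈ S}}
      (S ∩ {x | x + ((n + 1 : ℕ) : ZMod v) ∈ S})
    rw [sh] at c1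
    refine c1.ge.trans (Nat.add_le_add ((ncard_le_ncard ?_).trans (sh S ((n + 1 : ℕ))).le)
      (ncard_le_ncard ?_))
    · rintro x (hx | hx)
      · simpa [add_assoc, add_comm (1 : ZMod v)] using hx.2
      · exact hx.2
    · exact fun x hx => ⟨hx.2.1, by simpa using hx.1.1⟩
  have key : ∀ n, 2 * g n + 2 * n + S.ncard ≤ 2 * (n * S.ncard) + a n := fun n => by
    induction n with
    | zero => simp [g0, a]
    | succ n ih =>
      have := g1 n
      have := b3 n
      nlinarith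
  have := key c
  have := a0 c
  omega

theorem suf {α : Type} (M : Matroid α) (hM : M.E.Finite) {r c : ℕ} (hn : M.E.ncard = r + c)
    (hU : ∀ I ⊆ M.E, M.Indep I ↔ I.ncard ≤ r)
    (h : r = 0 ∨ c = 0 ∨ r + 2 * c = 2 * c ^ 2 ∨ r = 2 * c ^ 2 ∨ 2 * c ^ 2 + c ≤ r) :
    InClass M := by
  have any : ∃ F ⊆ (⊤ : SimpleGraph (Fin (2 * (r + c) + 1))).edgeSet, F.ncard = r + c := by
    refine exists_subset_card_eq ?_
    have := top_card (Fin (2 * (r + c) + 1))
    rw [Nat.card_eq_fintype_card, Fintype.card_fin] at this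
    nlinarith
  by_cases r0 : r = 0
  · obtain ⟨F, h1, h2⟩ := any
    exact unif_of M hM hU F h1 (h2.trans hn.symm) 0 0 (Or.inl (by omega)) fun G _ _ h => by omega
  by_cases c0 : c = 0
  · obtain ⟨F, h1, h2⟩ := any
    refine unif_of M hM hU F h1 (h2.trans hn.symm) r 0 (Or.inr (by omega)) fun G _ g h => ?_
    exact h.trans (Nat.le_mul_of_pos_right r ((ncard_pos).2 (supp_nonempty g)))
  obtain ⟨c, rfl⟩ := Nat.exists_eq_add_of_le' (Nat.pos_of_ne_zero c0)
  have main : ∀ v j, r + (c + 1) = (c + 1) * v + j → j ≤ c → 2 * (c + 1) < v →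
      2 * (r + (c + 1)) + v ≤ v * v → InClass M := fun v j h1 h2 h3 h4 => by
    have : NeZero v := ⟨by omega⟩
    have a1 := top_card (ZMod v)
    rw [Nat.card_zmod] at a1
    obtain ⟨F, f1, f2, f3⟩ := exists_subsuperset_card_eq (circ_top (v := v) (c := c + 1) (by omega))
      (n := r + (c + 1)) (by rw [circ_card h3]; omega) (by omega)
    refine unif_of M hM hU F f2 (f3.trans hn.symm) (c + 1) (c + 1 - j)
      (Or.inl (by rw [Nat.card_zmod]; omega)) fun G g1 g2 g3 => ?_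
    by_cases hS : supp G = univ
    · rw [hS, ncard_univ, Nat.card_zmod]; omega
    have b1 := circ_sparse (c := c + 1) (by omega) (supp_nonempty g2) hS
      (inter_subset_right (s := G)) (supp_mono inter_subset_left)
    have b2 := ncard_sdiff_add_ncard_of_subset f1
    have b3 := ncard_inter_add_ncard_sdiff_eq_ncard G (Circ v (c + 1))
    have b4 : (G \ Circ v (c + 1)).ncard ≤ (F \ Circ v (c + 1)).ncard :=
      ncard_le_ncard (sdiff_subset_sdiff_left g1)
    rw [circ_card h3] at b2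
    omega
  rcases h with h | h | h | h | h
  · omega
  · omega
  · have a1 := top_card (Fin (2 * c + 2))
    rw [Nat.card_eq_fintype_card, Fintype.card_fin] at a1
    refine unif_of M hM hU (V := Fin (2 * c + 2)) _ subset_rfl (by nlinarith) c 0
      (Or.inl (by rw [Nat.card_eq_fintype_card, Fintype.card_fin]; nlinarith)) fun G g1 _ g3 => ?_
    have b1 := two_mul_le g1 subset_rfl
    have b2 : (supp G).ncard ≤ 2 * c + 2 := by simpa using ncard_le_ncard (subset_univ (supp G))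
    rcases b2.eq_or_lt with b3 | b3
    · rw [b3]; nlinarith
    · nlinarith
  · exact main (2 * c + 3) 0 (by nlinarith) (by omega) (by omega) (by nlinarith)
  · have a1 := Nat.div_add_mod (r + (c + 1)) (c + 1)
    have a2 : (r + (c + 1)) % (c + 1) < c + 1 := Nat.mod_lt _ (Nat.succ_pos c)
    have a3 : 2 * c + 4 ≤ (r + (c + 1)) / (c + 1) :=
      (Nat.le_div_iff_mul_le (Nat.succ_pos c)).2 (by nlinarith)
    refine main _ _ a1.symm (by omega) (by omega) ?_
    obtain ⟨w, hw⟩ := Nat.exists_eq_add_of_le a3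
    rw [hw] at a1 ⊢
    nlinarith [Nat.zero_le (w * w), Nat.zero_le (w * c)]

theorem uniform_iff {α : Type} (M : Matroid α) (hM : M.E.Finite) {r c : ℕ}
    (hn : M.E.ncard = r + c) (hU : ∀ I ⊆ M.E, M.Indep I ↔ I.ncard ≤ r) :
    InClass M ↔ r = 0 ∨ c = 0 ∨ r + 2 * c = 2 * c ^ 2 ∨ r = 2 * c ^ 2 ∨ 2 * c ^ 2 + c ≤ r := by
  refine ⟨?_, suf M hM hn hU⟩
  rintro ⟨P, V, _, Γ, f, hf, hP, hN⟩
  by_cases hr : r = 0
  · exact Or.inl hr
  by_cases hc : c = 0
  · exact Or.inr (Or.inl hc)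
  refine Or.inr (Or.inr (nec hP hN ?_ (fun J hJ => ⟨fun h => ?_, fun h => ?_⟩) hr hc))
  · rw [← hN.1, ← hn]
    exact hf.ncard_image
  · obtain ⟨I, i1, i2⟩ := (map_sizes M f hf).1 J h
    exact i2 ▸ (hU I i1.subset_ground).1 i1
  · by_contra h2
    obtain ⟨I, i1, i2, i3⟩ := (map_sizes M f hf).2 J (hN.1 ▸ hJ) h2
    exact i2 ((hU I i1).2 (i3 ▸ h))

end Pool.Agent.MP_1a6d08_co
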