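import Mathlib.Data.Fintype.Perm
import Mathlib.Analysis.Complex.Exponential
import Mathlib.Algebra.Order.Star.Real
import Pool.Agent.MP_1a6d08_co.Suf

/-!
Matroidal families of graphs: a sparse graph that is far from all its permuted copies.
-/

open Set

namespace Pool.Agent.MP_1a6d08_co

open Classical in
theorem coins {B : Type} [Fintype B] (R : Set B) (ψ : (B → Bool) → B → Prop)
    (hψ : ∀ ω ω', (∀ γ ∉ R, ω γ = ω' γ) → ∀ β ∈ R, (ψ ω β ↔ ψ ω' β)) (t : ℕ) :
    ({ω : B → Bool | {β ∈ R | ¬(ω β = false ↔ ψ ω β)}.ncard < t}.ncard : ℝ) ≤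
      2 ^ t * (2 ^ Fintype.card B * (3 / 4) ^ R.ncard) := by
  let Φ : (B → Bool) → B → Bool := fun ω β =>
    if β ∈ R then decide (¬(ω β = false ↔ ψ ω β)) else ω β
  have inj : Function.Injective Φ := fun ω ω' e => by
    have h1 : ∀ γ ∉ R, ω γ = ω' γ := fun γ h => by simpa [Φ, h] using congrFun e γ
    funext β
    by_cases h : β ∈ R
    · have h2 := congrFun e β
      simp only [Φ, if_pos h, decide_eq_decide, hψ ω ω' h1 β h] at h2
      cases h3 : ω β <;> cases h4 : ω' β <;> simp_all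
    · exact h1 β h
  have h1 : {ω : B → Bool | {β ∈ R | ¬(ω β = false ↔ ψ ω β)}.ncard < t}.ncard ≤
      {ω : B → Bool | {β ∈ R | ω β = true}.ncard < t}.ncard :=
    ncard_le_ncard_of_injOn Φ (fun ω hω => by
      have : {β ∈ R | Φ ω β = true} = {β ∈ R | ¬(ω β = false ↔ ψ ω β)} :=
        sep_ext_iff.2 fun β h => by simp only [Φ, if_pos h, decide_eq_true_eq]
      rwa [mem_ofPred_eq, this]) inj.injOn
  refine (Nat.cast_le.2 h1).trans ?_
  let w : B → Bool → ℝ := fun β b => if β ∈ R ∧ b = true then 1 / 2 else 1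
  have pw : ∀ (c : ℝ) (T : Set B), ∏ β, (if β ∈ T then c else 1) = c ^ T.ncard := fun c T => by
    rw [Finset.prod_ite, Finset.prod_const_one, mul_one, Finset.prod_const, ← ncard_coe_finset]
    simp
  have h2 : ∑ ω : B → Bool, ∏ β, w β (ω β) = 2 ^ Fintype.card B * (3 / 4) ^ R.ncard := by
    rw [← Fintype.piFinset_univ, ← Finset.prod_univ_sum, ← pw, ← Finset.card_univ,
      ← Finset.prod_const, ← Finset.prod_mul_distrib]
    refine Finset.prod_congr rfl fun β _ => ?_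
    by_cases h : β ∈ R <;> norm_num [w, h]
  rw [← h2, Finset.mul_sum, ncard_eq_toFinset_card', Finset.card_eq_sum_ones, Nat.cast_sum]
  refine le_trans (Finset.sum_le_sum fun ω hω => ?_) (Finset.sum_le_sum_of_subset_of_nonneg
    (Finset.subset_univ _) fun ω _ _ => by
      refine mul_nonneg (by positivity) (Finset.prod_nonneg fun β _ => ?_)
      simp only [w]; split_ifs <;> norm_num)
  have h3 : ∏ β, w β (ω β) = (1 / 2) ^ {β ∈ R | ω β = true}.ncard := by
    rw [← pw]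
    exact Finset.prod_congr rfl fun β _ => by simp [w]
  have h4 : {β ∈ R | ω β = true}.ncard ≤ t := le_of_lt (by simpa using hω)
  rw [h3, one_div_pow, mul_one_div, Nat.cast_one, one_le_div (by positivity)]
  exact pow_le_pow_right₀ one_le_two h4

theorem union_bound {A I : Type} [Fintype A] (s : Finset I) (T : I → Set A)
    (h : ∀ a, ∃ i ∈ s, a ∈ T i) : Fintype.card A ≤ ∑ i ∈ s, (T i).ncard := by
  classical
  simp only [ncard_eq_toFinset_card']
  refine le_trans (Finset.card_le_card fun a _ => ?_) Finset.card_biUnion_le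
  simpa using h a

theorem perm_sum {V : Type} [Fintype V] [DecidableEq V] {y : ℝ} (hy : 0 ≤ y)
    (h : (Fintype.card V : ℝ) ^ 2 * y ≤ 1) :
    ∑ σ ∈ Finset.univ.erase (1 : Equiv.Perm V), y ^ {x | σ x ≠ x}.ncard ≤
      2 * ((Fintype.card V : ℝ) ^ 2 * y) := by
  let w : V → V → ℝ := fun x z => if z ≠ x then y else 1
  have w0 : ∀ x z, 0 ≤ w x z := fun x z => by simp only [w]; split_ifs <;> positivity
  have h1 : ∀ σ : Equiv.Perm V, y ^ {x | σ x ≠ x}.ncard = ∏ x, w x (σ x) := fun σ => by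
    rw [Finset.prod_ite, Finset.prod_const_one, mul_one, Finset.prod_const, ← ncard_coe_finset]
    simp
  have h2 : ∑ σ : Equiv.Perm V, ∏ x, w x (σ x) ≤ ∑ f : V → V, ∏ x, w x (f x) := by
    rw [← Finset.sum_image (g := fun σ : Equiv.Perm V => (σ : V → V)) (f := fun f => ∏ x, w x (f x))
      fun _ _ _ _ e => Equiv.coe_fn_injective e]
    exact Finset.sum_le_sum_of_subset_of_nonneg (Finset.subset_univ _)
      fun f _ _ => Finset.prod_nonneg fun x _ => w0 _ _
  have h3 : ∑ f : V → V, ∏ x, w x (f x) ≤ Real.exp ((Fintype.card V : ℝ) ^ 2 * y) := by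
    rw [← Fintype.piFinset_univ, ← Finset.prod_univ_sum, sq, mul_assoc, Real.exp_nat_mul,
      ← Finset.card_univ, ← Finset.prod_const]
    refine Finset.prod_le_prod (fun x _ => Finset.sum_nonneg fun z _ => w0 _ _) fun x _ => ?_
    refine le_trans ?_ (Real.add_one_le_exp _)
    calc ∑ z, w x z ≤ ∑ z, (y + if z = x then 1 else 0) :=
          Finset.sum_le_sum fun z _ => by by_cases e : z = x <;> simp [w, e, hy]
      _ = _ := by simp [Finset.sum_add_distrib]
  have h4 := Finset.add_sum_erase Finset.univ (fun σ : Equiv.Perm V => y ^ {x | σ x ≠ x}.ncard)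
    (Finset.mem_univ 1)
  have h0 : 0 ≤ (Fintype.card V : ℝ) ^ 2 * y := by positivity
  have h5 := (abs_le.1 (Real.abs_exp_sub_one_le ((abs_of_nonneg h0).trans_le h))).2
  rw [abs_of_nonneg h0] at h5
  simp only [h1] at h4 ⊢
  have h6 : ∏ x, w x ((1 : Equiv.Perm V) x) = 1 := by simp [w]
  linarith

theorem rel_card {A B : Type} [Finite A] (r : A → B → Prop) (R : Set A)
    (h : ∀ a b b', r a b → r a b' → b = b') : {b | ∃ a ∈ R, r a b}.ncard ≤ R.ncard := by
  have H : ∀ b : {b | ∃ a ∈ R, r a b}, ∃ a : R, r a b := fun ⟨_, a, h1, h2⟩ => ⟨⟨a, h1⟩, h2⟩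
  choose f hf using H
  exact Nat.card_le_card_of_injective f fun b b' e => Subtype.ext (h _ _ _ (hf b) (e ▸ hf b'))

theorem exists_asym {v h j q t : ℕ} (hv : 4 * h + 2 < v) (hj : j ≤ v) (hq : 4 * q + 1 ≤ h)
    (hy : (2 : ℝ) ^ t * (2 * ((v : ℝ) ^ 2 * (3 / 4) ^ q)) < 1) :
    ∃ Δ ⊆ Circ v (2 * h + 1), Δ.ncard = h * v + j ∧ ∀ σ : Equiv.Perm (ZMod v), σ ≠ 1 →
      t ≤ {e ∈ (⊤ : SimpleGraph (ZMod v)).edgeSet | ¬(e ∈ Δ ↔ Sym2.map σ e ∈ Δ)}.ncard := by
  classical
  have : NeZero v := ⟨by omega⟩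
  obtain ⟨X, -, hX⟩ := exists_subset_card_eq (s := (univ : Set (ZMod v))) (n := j)
    (by rwa [ncard_univ, Nat.card_zmod])
  let ed : ZMod v × Fin h → Bool → Sym2 (ZMod v) := fun β b => ce β.1 (2 * β.2 + b.toNat)
  have lt : ∀ (i : Fin h) (b : Bool), 2 * i.1 + b.toNat < 2 * h := fun i b => by
    have := i.2
    have := b.toNat_le
    omega
  have inj : ∀ β γ b c, ed β b = ed γ c → β = γ ∧ b = c := fun β γ b c e => by
    obtain ⟨h1, h2⟩ := ce_inj (by have := lt β.2 b; have := lt γ.2 c; omega) e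
    refine ⟨Prod.ext h1 (Fin.ext ?_), ?_⟩ <;> cases b <;> cases c <;> simp at h2 ⊢ <;> omega
  have nf : ∀ β b x, ed β b ≠ ce x (2 * h) := fun β b x e => by
    have := lt β.2 b
    have := (ce_inj (by omega) e).2
    omega
  let D : (ZMod v × Fin h → Bool) → Set (Sym2 (ZMod v)) := fun ω =>
    range (fun β => ed β (ω β)) ∪ (fun x => ce x (2 * h)) '' X
  have mem : ∀ ω β b, ed β b ∈ D ω ↔ ω β = b := fun ω β b => by
    refine ⟨?_, fun e => Or.inl ⟨β, by rw [← e]⟩⟩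
    rintro (⟨γ, e⟩ | ⟨x, -, e⟩)
    · obtain ⟨rfl, h2⟩ := inj _ _ _ _ e
      exact h2
    · exact absurd e.symm (nf _ _ _)
  have key : ∀ σ : Equiv.Perm (ZMod v), ({ω | {e ∈ (⊤ : SimpleGraph (ZMod v)).edgeSet |
      ¬(e ∈ D ω ↔ Sym2.map σ e ∈ D ω)}.ncard < t}.ncard : ℝ) ≤
      2 ^ t * (2 ^ Fintype.card (ZMod v × Fin h) * ((3 / 4) ^ q) ^ {x | σ x ≠ x}.ncard) := by
    intro σ
    let cf : ZMod v × Fin h → ZMod v × Fin h → Bool → Prop := fun β γ b =>
      Sym2.map σ (ed β false) = ed γ b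
    obtain ⟨R, r1, r2⟩ := exists_max_image {R : Set (ZMod v × Fin h) | ∀ β ∈ R, ∀ γ ∈ R, ∀ b,
      ¬cf β γ b} ncard (toFinite _) ⟨∅, by simp⟩
    have a1 : {x | σ x ≠ x} ×ˢ (univ : Set (Fin h)) ⊆
        {β | ∃ x ∈ {x | σ x ≠ x}, x = β.1 ∧ σ β.1 ≠ β.1 ∧ ∃ b, cf β β b} ∪ R ∪
        {γ | ∃ β ∈ R, ∃ b, cf β γ b} ∪ {β | ∃ γ ∈ R, cf β γ false} ∪
        {β | ∃ γ ∈ R, cf β γ true} := fun β hβ => by
      by_contra hn
      simp only [mem_union, not_or, mem_ofPred_eq, not_exists, not_and] at hn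
      obtain ⟨⟨⟨⟨n1, n2⟩, n3⟩, n4⟩, n5⟩ := hn
      have := r2 (insert β R) (by
        rintro β1 (rfl | h1) β2 (rfl | h2) b
        · exact n1 _ hβ.1 rfl hβ.1 b
        · cases b
          exacts [n4 _ h2, n5 _ h2]
        · exact n3 _ h1 b
        · exact r1 _ h1 _ h2 b)
      rw [ncard_insert_of_notMem n2] at this
      omega
    have a2 := rel_card (fun x (β : ZMod v × Fin h) => x = β.1 ∧ σ β.1 ≠ β.1 ∧ ∃ b, cf β β b)
      {x | σ x ≠ x} (by
        rintro x ⟨_, i⟩ ⟨_, i'⟩ ⟨rfl, h1, b, h2⟩ ⟨rfl, -, b', h3⟩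
        have h4 := ((Sym2.eq_iff.1 h2).resolve_left fun e => h1 e.1).2
        have h5 := ((Sym2.eq_iff.1 h3).resolve_left fun e => h1 e.1).2
        exact (inj (x, i) (x, i') false false
          (congrArg (fun y => s(x, y)) (σ.injective (h4.trans h5.symm)))).1)
    have a3 := rel_card (fun β γ => ∃ b, cf β γ b) R
      fun _ _ _ ⟨_, h1⟩ ⟨_, h2⟩ => (inj _ _ _ _ (h1.symm.trans h2)).1
    have a4 := fun b => rel_card (fun γ β => cf β γ b) R
      fun _ _ _ h1 h2 => (inj _ _ _ _ (Sym2.map.injective σ.injective (h1.trans h2.symm))).1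
    have a5 := (ncard_le_ncard a1).trans ((ncard_union_le _ _).trans (Nat.add_le_add
      ((ncard_union_le _ _).trans (Nat.add_le_add ((ncard_union_le _ _).trans (Nat.add_le_add
      ((ncard_union_le _ _).trans (Nat.add_le_add a2 le_rfl)) a3)) (a4 false))) (a4 true)))
    rw [ncard_prod, ncard_univ, Nat.card_eq_fintype_card, Fintype.card_fin] at a5
    have a6 : q * {x | σ x ≠ x}.ncard ≤ R.ncard := by
      have := Nat.mul_le_mul_left {x | σ x ≠ x}.ncard hq
      nlinarith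
    have a7 := coins R (fun ω β => Sym2.map σ (ed β false) ∈ D ω) (fun ω ω' e β hβ => by
      refine or_congr_left (exists_congr fun γ => ?_)
      by_cases hγ : γ ∈ R
      · exact iff_of_false (fun h => r1 β hβ γ hγ _ h.symm) fun h => r1 β hβ γ hγ _ h.symm
      · simp only [e γ hγ]) t
    refine le_trans (Nat.cast_le.2 (ncard_le_ncard fun ω hω => ?_)) (a7.trans ?_)
    · refine lt_of_le_of_lt (ncard_le_ncard_of_injOn (fun β => ed β false) (fun β hβ => ?_)
        fun β _ γ _ e => (inj _ _ _ _ e).1) hω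
      exact ⟨ce_top _ (by have := lt β.2 false; omega), by rw [mem]; exact hβ.2⟩
    · rw [← pow_mul]
      gcongr 2 ^ t * (_ * ?_)
      exact pow_le_pow_of_le_one (by norm_num) (by norm_num) a6
  obtain ⟨ω, hω⟩ : ∃ ω, ∀ σ : Equiv.Perm (ZMod v), σ ≠ 1 → t ≤ {e ∈ (⊤ : SimpleGraph
      (ZMod v)).edgeSet | ¬(e ∈ D ω ↔ Sym2.map σ e ∈ D ω)}.ncard := by
    by_contra hn
    simp only [not_exists, not_forall, not_le, exists_prop] at hn
    have b1 := union_bound (Finset.univ.erase (1 : Equiv.Perm (ZMod v)))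
      (fun σ => {ω | {e ∈ (⊤ : SimpleGraph (ZMod v)).edgeSet |
        ¬(e ∈ D ω ↔ Sym2.map σ e ∈ D ω)}.ncard < t})
      fun ω => (hn ω).imp fun σ h => ⟨Finset.mem_erase.2 ⟨h.1, Finset.mem_univ _⟩, h.2⟩
    have b2 : (1 : ℝ) ≤ 2 ^ t := one_le_pow₀ one_le_two
    have b3 : (0 : ℝ) ≤ (v : ℝ) ^ 2 * (3 / 4) ^ q := by positivity
    have b4 := perm_sum (V := ZMod v) (y := (3 / 4) ^ q) (by positivity)
      (by rw [ZMod.card]; nlinarith)
    rw [ZMod.card] at b4
    have b5 := (Nat.cast_le (α := ℝ)).2 b1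
    rw [Nat.cast_sum, Fintype.card_fun, Fintype.card_bool] at b5
    have b6 := b5.trans (Finset.sum_le_sum fun σ _ => key σ)
    rw [← Finset.mul_sum, ← Finset.mul_sum] at b6
    push_cast at b6
    have b7 : (0 : ℝ) < 2 ^ Fintype.card (ZMod v × Fin h) := by positivity
    have b8 := mul_lt_mul_of_pos_left
      ((mul_le_mul_of_nonneg_left b4 (zero_le_one.trans b2)).trans_lt hy) b7
    linarith
  refine ⟨D ω, ?_, ?_, hω⟩
  · rintro _ (⟨β, rfl⟩ | ⟨x, -, rfl⟩)
    · exact ⟨(β.1, ⟨_, (lt β.2 (ω β)).trans (Nat.lt_succ_self _)⟩), rfl⟩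
    · exact ⟨(x, ⟨_, Nat.lt_succ_self _⟩), rfl⟩
  · rw [ncard_union_eq (disjoint_left.2 (by rintro _ ⟨β, rfl⟩ ⟨x, -, e⟩; exact nf _ _ _ e.symm)),
      ncard_image_of_injective _ fun x y e => (ce_inj (by omega) e).1, hX, ← image_univ,
      ncard_image_of_injective _ fun β γ e => (inj _ _ _ _ e).1, ncard_univ, Nat.card_prod,
      Nat.card_zmod, Nat.card_eq_fintype_card, Fintype.card_fin, mul_comm]

end Pool.Agent.MP_1a6d08_co
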